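import Pool.Agent.H54.RP.Label

/-!
Team RP (MP_a57ff3_nt), helper54. Sums over arcs and over blocks.
-/

set_option autoImplicit false

namespace H54RP

open Finset Pool.Agent.H98.RP2

/-- the state of type `τ` in the block `j` -/
def stt (σ : Bool) (τ j : ℤ) : ℤ := if σ then 4 * j + τ else 4 * j + 1 - τ

theorem blk_stt (σ : Bool) {τ : ℤ} (h1 : -1 ≤ τ) (h2 : τ ≤ 2) (j : ℤ) : blk (stt σ τ j) = j := by
  unfold stt blk
  cases σ
  · simp only [Bool.false_eq_true, if_false]; omega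
  · simp only [if_true]; omega

theorem ty_stt (σ : Bool) {τ : ℤ} (h1 : -1 ≤ τ) (h2 : τ ≤ 2) (j : ℤ) : ty σ (stt σ τ j) = τ := by
  unfold ty
  rw [blk_stt σ h1 h2 j]
  unfold stt
  cases σ
  · simp only [Bool.false_eq_true, if_false]; ring
  · simp only [if_true]; ring

theorem stt_inj (σ : Bool) (τ : ℤ) {i j : ℤ} (h : stt σ τ i = stt σ τ j) : i = j := by
  unfold stt at h
  cases σ
  · simp only [Bool.false_eq_true, if_false] at h; omega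
  · simp only [if_true] at h; omega

/-- the letter with given `b` and `d` -/
def ltr (b d : ℤ) : Lt := (if b = 1 then 2 else if b = 0 then 1 else 0, if d = 1 then 1 else 0)

theorem bb_ltr {b : ℤ} (hb : b = -1 ∨ b = 0 ∨ b = 1) (d : ℤ) : bb (ltr b d) = b := by
  unfold bb ltr
  rcases hb with rfl | rfl | rfl <;> norm_num

theorem dd_ltr (b : ℤ) {d : ℤ} (hd : d = 0 ∨ d = 1) : dd (ltr b d) = d := by
  unfold dd ltr
  rcases hd with rfl | rfl <;> norm_num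

namespace Fam

variable {Φ : Fam}

/-- sum over arcs of one type of state -/
theorem arc_sum (σ : Bool) {g : ℤ} (hok : Φ.Ok g) (f : ℤ → ℝ) (J : Finset ℤ) {τ : ℤ}
    (h1 : -1 ≤ τ) (h2 : τ ≤ 2) (v : ℤ → Lt)
    (hm : ∀ j ∈ J, 1 ≤ (Φ.ch g).mass σ (bb (v j)) (stt σ τ j))
    (hd : ∀ j ∈ J, 1 ≤ (Φ.ch g).Dd (dd (v j)) (j + Φ.q * bb (v j))) :
    ∑ j ∈ J, |f (j + cL Φ.q Φ.N (v j)) - f (stt σ τ j)| ≤ 16 * (Φ.fl σ g).E1 f := by
  have hW : ∀ j ∈ J, 1 / 16 ≤ (Φ.fl σ g).W (stt σ τ j) (v j) := by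
    intro j hj
    rw [Φ.fl_W σ hok]
    apply Chn.W_ge hok.1 hok.2 σ _ _ (hm j hj)
    rw [blk_stt σ h1 h2]
    exact hd j hj
  have hT : ∀ j, T (cL Φ.q Φ.N) (v j) (stt σ τ j) = j + cL Φ.q Φ.N (v j) := by
    intro j
    unfold T
    rw [blk_stt σ h1 h2]
  have key : ∀ j ∈ J, |f (j + cL Φ.q Φ.N (v j)) - f (stt σ τ j)| ≤
      16 * ∑ u, (Φ.fl σ g).W (stt σ τ j) u *
        |f (T (cL Φ.q Φ.N) u (stt σ τ j)) - f (stt σ τ j)| := by
    intro j hj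
    have h3 : (Φ.fl σ g).W (stt σ τ j) (v j) *
        |f (T (cL Φ.q Φ.N) (v j) (stt σ τ j)) - f (stt σ τ j)| ≤
        ∑ u, (Φ.fl σ g).W (stt σ τ j) u *
          |f (T (cL Φ.q Φ.N) u (stt σ τ j)) - f (stt σ τ j)| :=
      single_le_sum (f := fun u => (Φ.fl σ g).W (stt σ τ j) u *
          |f (T (cL Φ.q Φ.N) u (stt σ τ j)) - f (stt σ τ j)|)
        (fun u _ => mul_nonneg ((Φ.fl σ g).nonneg _ u) (abs_nonneg _)) (mem_univ _)
    rw [hT] at h3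
    have h4 := hW j hj
    have h5 := abs_nonneg (f (j + cL Φ.q Φ.N (v j)) - f (stt σ τ j))
    nlinarith
  refine (sum_le_sum key).trans ?_
  rw [← mul_sum]
  refine mul_le_mul_of_nonneg_left ?_ (by norm_num)
  have h6 : ∑ j ∈ J, ∑ u, (Φ.fl σ g).W (stt σ τ j) u *
      |f (T (cL Φ.q Φ.N) u (stt σ τ j)) - f (stt σ τ j)| =
      ∑ X ∈ J.map ⟨fun j => stt σ τ j, fun _ _ h => stt_inj σ τ h⟩,
        ∑ u, (Φ.fl σ g).W X u * |f (T (cL Φ.q Φ.N) u X) - f X| := by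
    rw [sum_map]; rfl
  rw [h6]
  unfold Flow.E1
  refine sum_le_sum_of_subset_of_nonneg ?_ fun X _ _ =>
    sum_nonneg fun u _ => mul_nonneg ((Φ.fl σ g).nonneg X u) (abs_nonneg _)
  intro X hX
  rw [mem_map] at hX
  obtain ⟨j, hj, rfl⟩ := hX
  by_contra hc
  have h7 := hW j hj
  have h8 := (Φ.fl σ g).off _ hc (v j)
  change 1 / 16 ≤ (Φ.fl σ g).W (stt σ τ j) (v j) at h7
  change (Φ.fl σ g).W (stt σ τ j) (v j) = 0 at h8
  rw [h8] at h7
  norm_num at h7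

/-- a digit is always available -/
theorem exists_d {g : ℤ} (hok : Φ.Ok g) (σ : Bool) {τ b : ℤ} (h1 : -1 ≤ τ) (h2 : τ ≤ 2)
    (hb : b = -1 ∨ b = 0 ∨ b = 1) (j : ℤ) (hm : 1 ≤ (Φ.ch g).mass σ b (stt σ τ j)) :
    ∃ d : ℤ, (d = 0 ∨ d = 1) ∧ 1 ≤ (Φ.ch g).Dd d (j + Φ.q * b) := by
  have e1 := Chn.mass_le_brk hok.1 σ b (stt σ τ j)
  rw [blk_stt σ h1 h2] at e1
  have e2 := Chn.brk_le_r hok.1 hb j
  have e3 := Chn.Dd_sum hok.1 (j + (Φ.ch g).P.Q * b)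
  have e4 : (Φ.ch g).P.Q = Φ.q := rfl
  rw [e4] at e2 e3
  by_cases h0 : 1 ≤ (Φ.ch g).Dd 0 (j + Φ.q * b)
  · exact ⟨0, Or.inl rfl, h0⟩
  · exact ⟨1, Or.inr rfl, by omega⟩

/-- two states of one block with a common `b` -/
theorem pair_sum (σ : Bool) {g : ℤ} (hok : Φ.Ok g) (f : ℤ → ℝ) (J : Finset ℤ) {τ τ' b : ℤ}
    (h1 : -1 ≤ τ) (h2 : τ ≤ 2) (h1' : -1 ≤ τ') (h2' : τ' ≤ 2) (hb : b = -1 ∨ b = 0 ∨ b = 1)
    (hm : ∀ j ∈ J, 1 ≤ (Φ.ch g).mass σ b (stt σ τ j))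
    (hm' : ∀ j ∈ J, 1 ≤ (Φ.ch g).mass σ b (stt σ τ' j)) :
    ∑ j ∈ J, |f (stt σ τ' j) - f (stt σ τ j)| ≤ 32 * (Φ.fl σ g).E1 f := by
  classical
  have hex : ∀ j, ∃ d : ℤ, (d = 0 ∨ d = 1) ∧ (j ∈ J → 1 ≤ (Φ.ch g).Dd d (j + Φ.q * b)) := by
    intro j
    by_cases hj : j ∈ J
    · obtain ⟨d, hd, h⟩ := exists_d hok σ h1 h2 hb j (hm j hj)
      exact ⟨d, hd, fun _ => h⟩
    · exact ⟨0, Or.inl rfl, fun h => absurd h hj⟩
  choose d hd1 hd2 using hex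
  have a1 := arc_sum σ hok f J h1 h2 (fun j => ltr b (d j))
    (fun j hj => by rw [bb_ltr hb]; exact hm j hj)
    (fun j hj => by rw [bb_ltr hb, dd_ltr b (hd1 j)]; exact hd2 j hj)
  have a2 := arc_sum σ hok f J h1' h2' (fun j => ltr b (d j))
    (fun j hj => by rw [bb_ltr hb]; exact hm' j hj)
    (fun j hj => by rw [bb_ltr hb, dd_ltr b (hd1 j)]; exact hd2 j hj)
  have a3 : ∑ j ∈ J, |f (stt σ τ' j) - f (stt σ τ j)| ≤
      ∑ j ∈ J, |f (j + cL Φ.q Φ.N (ltr b (d j))) - f (stt σ τ j)| +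
      ∑ j ∈ J, |f (j + cL Φ.q Φ.N (ltr b (d j))) - f (stt σ τ' j)| := by
    rw [← sum_add_distrib]
    refine sum_le_sum fun j _ => ?_
    have := abs_sub_le (f (stt σ τ' j)) (f (j + cL Φ.q Φ.N (ltr b (d j)))) (f (stt σ τ j))
    rw [abs_sub_comm (f (stt σ τ' j)) (f (j + cL Φ.q Φ.N (ltr b (d j))))] at this
    linarith
  linarith

/-- two-sided noise in the block `j` -/
def Noisy (Φ : Fam) (g j : ℤ) : Prop :=
  1 ≤ Φ.np g j ∧ Φ.np g j < 2 * (Φ.par g).w j ∧ 1 ≤ Φ.nm g j ∧ Φ.nm g j < 2 * (Φ.par g).w j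

/-- masses of the states of a block -/
theorem mass_stt (g : ℤ) (σ : Bool) (j : ℤ) :
    (Φ.ch g).mass σ 1 (stt σ (-1) j) = 2 * (Φ.par g).w j ∧
    (Φ.ch g).mass σ 1 (stt σ 0 j) = Φ.np g j ∧
    (Φ.ch g).mass σ 0 (stt σ 0 j) = 2 * (Φ.par g).w j - Φ.np g j ∧
    (Φ.ch g).mass σ 0 (stt σ 1 j) = 2 * (Φ.par g).w j - Φ.nm g j ∧
    (Φ.ch g).mass σ (-1) (stt σ 1 j) = Φ.nm g j ∧
    (Φ.ch g).mass σ (-1) (stt σ 2 j) = 2 * (Φ.par g).w j := by
  unfold Chn.mass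
  rw [ty_stt σ (by norm_num) (by norm_num), ty_stt σ (by norm_num) (by norm_num),
    ty_stt σ (by norm_num) (by norm_num), ty_stt σ (by norm_num) (by norm_num),
    blk_stt σ (by norm_num) (by norm_num), blk_stt σ (by norm_num) (by norm_num),
    blk_stt σ (by norm_num) (by norm_num), blk_stt σ (by norm_num) (by norm_num)]
  simp [ch]

/-- variation inside the block `j` -/
noncomputable def bvar (σ : Bool) (f : ℤ → ℝ) (j : ℤ) : ℝ :=
  |f (stt σ 0 j) - f (stt σ (-1) j)| + |f (stt σ 1 j) - f (stt σ 0 j)| +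
    |f (stt σ 2 j) - f (stt σ 1 j)|

theorem bvar_eq (σ : Bool) (f : ℤ → ℝ) (j : ℤ) : bvar σ f j =
    |f (4 * j) - f (4 * j - 1)| + |f (4 * j + 1) - f (4 * j)| + |f (4 * j + 2) - f (4 * j + 1)| := by
  unfold bvar stt
  cases σ
  · simp only [Bool.false_eq_true, if_false]
    rw [show (4 * j + 1 - (-1) : ℤ) = 4 * j + 2 by ring, show (4 * j + 1 - 0 : ℤ) = 4 * j + 1 by ring,
      show (4 * j + 1 - 1 : ℤ) = 4 * j by ring, show (4 * j + 1 - 2 : ℤ) = 4 * j - 1 by ring,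
      abs_sub_comm (f (4 * j + 1)) (f (4 * j + 2)), abs_sub_comm (f (4 * j)) (f (4 * j + 1)),
      abs_sub_comm (f (4 * j - 1)) (f (4 * j))]
    ring
  · simp only [if_true]
    rw [show (4 * j + -1 : ℤ) = 4 * j - 1 by ring, add_zero]

theorem merge_sum (σ : Bool) {g : ℤ} (hok : Φ.Ok g) (f : ℤ → ℝ) (J : Finset ℤ)
    (hJ : ∀ j ∈ J, Φ.Noisy g j) : ∑ j ∈ J, bvar σ f j ≤ 96 * (Φ.fl σ g).E1 f := by
  have e := fun j => mass_stt (Φ := Φ) g σ j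
  have s1 := pair_sum σ hok f J (τ := -1) (τ' := 0) (b := 1) (by norm_num) (by norm_num)
    (by norm_num) (by norm_num) (by norm_num)
    (fun j hj => by rw [(e j).1]; have := hJ j hj; unfold Noisy at this; omega)
    (fun j hj => by rw [(e j).2.1]; exact (hJ j hj).1)
  have s2 := pair_sum σ hok f J (τ := 0) (τ' := 1) (b := 0) (by norm_num) (by norm_num)
    (by norm_num) (by norm_num) (by norm_num)
    (fun j hj => by rw [(e j).2.2.1]; have := hJ j hj; unfold Noisy at this; omega)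
    (fun j hj => by rw [(e j).2.2.2.1]; have := hJ j hj; unfold Noisy at this; omega)
  have s3 := pair_sum σ hok f J (τ := 1) (τ' := 2) (b := -1) (by norm_num) (by norm_num)
    (by norm_num) (by norm_num) (by norm_num)
    (fun j hj => by rw [(e j).2.2.2.2.1]; exact (hJ j hj).2.2.1)
    (fun j hj => by rw [(e j).2.2.2.2.2]; have := hJ j hj; unfold Noisy at this; omega)
  unfold bvar
  rw [sum_add_distrib, sum_add_distrib]
  linarith

/-- mass of a block for `|f - e|` -/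
noncomputable def bsum (f : ℤ → ℝ) (e : ℝ) (j : ℤ) : ℝ :=
  |f (4 * j - 1) - e| + |f (4 * j) - e| + |f (4 * j + 1) - e| + |f (4 * j + 2) - e|

theorem bsum_le (σ : Bool) (f : ℤ → ℝ) (e : ℝ) (j : ℤ) {τ : ℤ} (h1 : -1 ≤ τ) (h2 : τ ≤ 2) :
    bsum f e j ≤ 4 * |f (stt σ τ j) - e| + 3 * bvar σ f j := by
  have h : ∀ a : ℤ, (a = 4 * j - 1 ∨ a = 4 * j ∨ a = 4 * j + 1 ∨ a = 4 * j + 2) →
      bsum f e j ≤ 4 * |f a - e| + 3 * bvar σ f j := by
    intro a ha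
    rw [bvar_eq]
    unfold bsum
    have t1 := abs_sub_le (f (4 * j - 1)) (f (4 * j)) e
    have t2 := abs_sub_le (f (4 * j)) (f (4 * j + 1)) e
    have t3 := abs_sub_le (f (4 * j + 1)) (f (4 * j + 2)) e
    have t4 := abs_sub_le (f (4 * j)) (f (4 * j - 1)) e
    have t5 := abs_sub_le (f (4 * j + 1)) (f (4 * j)) e
    have t6 := abs_sub_le (f (4 * j + 2)) (f (4 * j + 1)) e
    rw [abs_sub_comm (f (4 * j - 1)) (f (4 * j))] at t1
    rw [abs_sub_comm (f (4 * j)) (f (4 * j + 1))] at t2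
    rw [abs_sub_comm (f (4 * j + 1)) (f (4 * j + 2))] at t3
    have n1 := abs_nonneg (f (4 * j) - f (4 * j - 1))
    have n2 := abs_nonneg (f (4 * j + 1) - f (4 * j))
    have n3 := abs_nonneg (f (4 * j + 2) - f (4 * j + 1))
    rcases ha with rfl | rfl | rfl | rfl <;> linarith
  apply h
  unfold stt
  cases σ
  · simp only [Bool.false_eq_true, if_false]; omega
  · simp only [if_true]; omega

end Fam

end H54RP
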