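import Mathlib

/-!
Team RP (MP_a57ff3_nt), helper54. Growth of a sequence under an expansion inequality.
-/

namespace H54RP

open Finset

/-- If `min (a n) (M - a n) ≤ K (a (n+1) - a n)` for all `n` then `a` reaches `M`
after `2 K (log2 M + 1)` steps. -/
theorem growth (a : ℕ → ℕ) (M K : ℕ) (hmono : Monotone a) (h0 : 1 ≤ a 0) (hM : ∀ n, a n ≤ M)
    (h : ∀ n, min (a n) (M - a n) ≤ K * (a (n + 1) - a n)) :
    a (2 * K * (Nat.log 2 M + 1)) = M := by
  have hM1 : 1 ≤ M := h0.trans (hM 0)
  set J := Nat.log 2 M + 1 with hJ
  have hMJ : M < 2 ^ J := Nat.lt_pow_succ_log_self (by norm_num) M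
  -- first phase
  have hA : ∀ j, 2 ^ j ≤ a (K * j) ∨ M ≤ 2 * a (K * j) := by
    intro j
    induction j with
    | zero => left; simpa using h0
    | succ j ih =>
      by_cases hbig : M ≤ 2 * a (K * (j + 1))
      · exact Or.inr hbig
      · left
        push Not at hbig
        have hle : ∀ i, i ≤ K → a (K * j + i) ≤ a (K * (j + 1)) := fun i hi =>
          hmono (by rw [Nat.mul_succ]; omega)
        have hj : 2 ^ j ≤ a (K * j) := by
          rcases ih with h1 | h1
          · exact h1
          · have := hle 0 (Nat.zero_le _)
            rw [add_zero] at this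
            omega
        have hs : ∀ i, i ≤ K → i * a (K * j) ≤ K * (a (K * j + i) - a (K * j)) := by
          intro i
          induction i with
          | zero => intro _; simp
          | succ i ih2 =>
            intro hi
            have h1 := ih2 (by omega)
            have h2 := h (K * j + i)
            have h3 := hle i (by omega)
            have h4 : a (K * j) ≤ a (K * j + i) := hmono (by omega)
            have h5 : a (K * j + i) ≤ a (K * j + i + 1) := hmono (by omega)
            have h6 : a (K * j + i) ≤ M - a (K * j + i) := by omega
            rw [min_eq_left h6] at h2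
            have h7 : a (K * j + (i + 1)) - a (K * j) =
                (a (K * j + i) - a (K * j)) + (a (K * j + i + 1) - a (K * j + i)) := by
              rw [← add_assoc]; omega
            rw [h7, mul_add, add_mul, one_mul]
            omega
        have hK := hs K le_rfl
        have hK0 : 0 < K := by
          by_contra hK0
          have hK0' : K = 0 := by omega
          subst hK0'
          have := h 0
          have h8 := hle 0 le_rfl
          simp only [zero_mul, add_zero] at h8 hbig this
          have h9 : min (a 0) (M - a 0) = 0 := by omega
          have h10 := hM 0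
          rcases Nat.le_total (a 0) (M - a 0) with h11 | h11
          · rw [min_eq_left h11] at h9; omega
          · rw [min_eq_right h11] at h9; omega
        have h12 : a (K * j) ≤ a (K * j + K) - a (K * j) := Nat.le_of_mul_le_mul_left hK hK0
        rw [← Nat.mul_succ] at h12
        rw [pow_succ]
        have : j.succ = j + 1 := rfl
        rw [this] at h12
        omega
  have hhalf : M ≤ 2 * a (K * J) := by
    rcases hA J with h1 | h1
    · have := hM (K * J); omega
    · exact h1
  -- second phase
  have hB : ∀ j, 2 ^ j * (M - a (K * J + K * j)) ≤ M := by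
    intro j
    induction j with
    | zero => simp
    | succ j ih =>
      set n0 := K * J + K * j with hn0
      have hn1 : K * J + K * (j + 1) = n0 + K := by rw [hn0]; ring
      rw [hn1]
      have hs : ∀ i, i ≤ K → i * (M - a (n0 + K)) ≤ K * (a (n0 + i) - a n0) := by
        intro i
        induction i with
        | zero => intro _; simp
        | succ i ih2 =>
          intro hi
          have h1 := ih2 (by omega)
          have h2 := h (n0 + i)
          have h3 : a (K * J) ≤ a (n0 + i) := hmono (by omega)
          have h4 : a n0 ≤ a (n0 + i) := hmono (by omega)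
          have h5 : a (n0 + i) ≤ a (n0 + i + 1) := hmono (by omega)
          have h6 : M - a (n0 + i) ≤ a (n0 + i) := by omega
          have h8 : a (n0 + i) ≤ a (n0 + K) := hmono (by omega)
          rw [min_eq_right h6] at h2
          have h7 : a (n0 + (i + 1)) - a n0 =
              (a (n0 + i) - a n0) + (a (n0 + i + 1) - a (n0 + i)) := by
            rw [← add_assoc]; omega
          rw [h7, mul_add, add_mul, one_mul]
          omega
      have hK := hs K le_rfl
      rcases Nat.eq_zero_or_pos K with hK0 | hK0
      · subst hK0
        have h1 := h n0
        simp only [zero_mul, nonpos_iff_eq_zero] at h1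
        have h3 : a (0 * J) ≤ a n0 := hmono (by omega)
        have h6 : M - a n0 ≤ a n0 := by omega
        rw [min_eq_right h6] at h1
        rw [add_zero, h1]
        simp
      · have h12 : M - a (n0 + K) ≤ a (n0 + K) - a n0 := Nat.le_of_mul_le_mul_left hK hK0
        have h13 : 2 * (M - a (n0 + K)) ≤ M - a n0 := by
          have := hM (n0 + K)
          have : a n0 ≤ a (n0 + K) := hmono (by omega)
          omega
        calc 2 ^ (j + 1) * (M - a (n0 + K)) = 2 ^ j * (2 * (M - a (n0 + K))) := by ring
          _ ≤ 2 ^ j * (M - a n0) := Nat.mul_le_mul_left _ h13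
          _ ≤ M := ih
  have hfin := hB J
  have hidx : K * J + K * J = 2 * K * J := by ring
  rw [hidx] at hfin
  by_contra hne
  have hlt : a (2 * K * J) < M := lt_of_le_of_ne (hM _) hne
  have h1 : 1 ≤ M - a (2 * K * J) := by omega
  have : 2 ^ J * 1 ≤ 2 ^ J * (M - a (2 * K * J)) := Nat.mul_le_mul_left _ h1
  omega

/-- set version -/
theorem reach_all (S : Finset ℤ) (U : ℕ → Finset ℤ) (K : ℕ) (h0 : (U 0).Nonempty)
    (hsub : ∀ n, U n ⊆ S) (hmono : Monotone U)
    (h : ∀ n, min (U n).card (S \ U n).card ≤ K * (U (n + 1) \ U n).card) :
    U (2 * K * (Nat.log 2 S.card + 1)) = S := by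
  have h1 := growth (fun n => (U n).card) S.card K (fun i j hij => card_le_card (hmono hij))
    (Finset.card_pos.2 h0) (fun n => card_le_card (hsub n)) (fun n => by
      have := h n
      rw [card_sdiff_of_subset (hsub n), card_sdiff_of_subset (hmono (Nat.le_succ n))] at this
      exact this)
  exact eq_of_subset_of_card_le (hsub _) (le_of_eq h1.symm)

end H54RP
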