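import Pool.Agent.H54.RP.Flow

/-!
Team RP (MP_a57ff3_nt), helper54. Hitting lemma and energy of an increasing family of sets.
-/

namespace H54RP

open Finset

variable {ι : Type*} [Fintype ι] {c : ι → ℤ}

open Classical in
/-- probability to be in `C` at one of the times `0, ..., m` -/
noncomputable def eta (F : Flow c) (C : ℤ → Prop) : ℕ → ℤ → ℝ
  | 0, X => if C X then 1 else 0
  | m + 1, X => if C X then 1 else ∑ v, F.K X v * eta F C m (T c v X)

theorem eta_nonneg (F : Flow c) (C : ℤ → Prop) (m : ℕ) (X : ℤ) : 0 ≤ eta F C m X := by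
  classical
  induction m generalizing X with
  | zero => unfold eta; split_ifs <;> norm_num
  | succ m ih =>
    unfold eta
    split_ifs
    · norm_num
    · exact sum_nonneg fun v _ => mul_nonneg (F.K_nonneg X v) (ih _)

theorem eta_le_one (F : Flow c) (C : ℤ → Prop) (m : ℕ) (X : ℤ) : eta F C m X ≤ 1 := by
  classical
  induction m generalizing X with
  | zero => unfold eta; split_ifs <;> norm_num
  | succ m ih =>
    unfold eta
    split_ifs
    · norm_num
    · calc ∑ v, F.K X v * eta F C m (T c v X) ≤ ∑ v, F.K X v * 1 :=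
            sum_le_sum fun v _ => mul_le_mul_of_nonneg_left (ih _) (F.K_nonneg X v)
        _ ≤ 1 := by simp only [mul_one]; exact F.sum_K_le X

theorem eta_of_mem (F : Flow c) {C : ℤ → Prop} {X : ℤ} (h : C X) (m : ℕ) : eta F C m X = 1 := by
  classical
  cases m with
  | zero => unfold eta; rw [if_pos h]
  | succ m => unfold eta; rw [if_pos h]

open Classical in
/-- hitting lemma -/
theorem hit (F : Flow c) (C : ℤ → Prop) (f : ℤ → ℝ) (e : ℝ) (m : ℕ) :
    ∑ X ∈ F.supp, F.w X * eta F C m X * |f X - e| ≤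
      m * F.E1 f + (m + 1) * ∑ X ∈ F.supp.filter C, F.w X * |f X - e| := by
  have hB : ∑ X ∈ F.supp.filter C, F.w X * |f X - e| =
      ∑ X ∈ F.supp, F.w X * (if C X then 1 else 0) * |f X - e| := by
    rw [sum_filter]
    refine sum_congr rfl fun X _ => ?_
    split_ifs <;> simp
  induction m with
  | zero =>
    rw [hB]
    simp only [Nat.cast_zero, zero_mul, zero_add, one_mul]
    exact le_of_eq (sum_congr rfl fun X _ => by unfold eta; rfl)
  | succ m ih =>
    have key : ∀ X, F.w X * eta F C (m + 1) X * |f X - e| ≤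
        F.w X * (if C X then 1 else 0) * |f X - e| +
        (∑ v, F.W X v * (eta F C m (T c v X) * |f (T c v X) - e|)) +
        ∑ v, F.W X v * |f (T c v X) - f X| := by
      intro X
      have h0 : 0 ≤ ∑ v, F.W X v * (eta F C m (T c v X) * |f (T c v X) - e|) :=
        sum_nonneg fun v _ => mul_nonneg (F.nonneg X v)
          (mul_nonneg (eta_nonneg F C m _) (abs_nonneg _))
      have h1 : 0 ≤ ∑ v, F.W X v * |f (T c v X) - f X| :=
        sum_nonneg fun v _ => mul_nonneg (F.nonneg X v) (abs_nonneg _)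
      by_cases hC : C X
      · rw [eta_of_mem F hC, if_pos hC]
        linarith
      · have e1 : F.w X * eta F C (m + 1) X * |f X - e| =
            ∑ v, F.W X v * (eta F C m (T c v X) * |f X - e|) := by
          have : eta F C (m + 1) X = ∑ v, F.K X v * eta F C m (T c v X) := by
            conv_lhs => unfold eta
            rw [if_neg hC]
          rw [this, mul_sum, sum_mul]
          refine sum_congr rfl fun v _ => ?_
          rw [← F.w_mul_K X v]; ring
        rw [e1, if_neg hC]
        have h2 : ∑ v, F.W X v * (eta F C m (T c v X) * |f X - e|) ≤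
            ∑ v, (F.W X v * (eta F C m (T c v X) * |f (T c v X) - e|) +
              F.W X v * |f (T c v X) - f X|) := by
          refine sum_le_sum fun v _ => ?_
          rw [← mul_add]
          refine mul_le_mul_of_nonneg_left ?_ (F.nonneg X v)
          have a0 := eta_nonneg F C m (T c v X)
          have a1 := eta_le_one F C m (T c v X)
          have a2 := abs_sub_le (f X) (f (T c v X)) e
          rw [abs_sub_comm (f X) (f (T c v X))] at a2
          have a3 := abs_nonneg (f (T c v X) - f X)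
          nlinarith
        rw [sum_add_distrib] at h2
        simp only [mul_zero, zero_mul, zero_add]
        exact h2
    have hsum := sum_le_sum fun X (_ : X ∈ F.supp) => key X
    rw [sum_add_distrib, sum_add_distrib, ← hB,
      F.push (fun Y => eta F C m Y * |f Y - e|)] at hsum
    have hE : ∑ X ∈ F.supp, ∑ v, F.W X v * |f (T c v X) - f X| = F.E1 f := rfl
    rw [hE] at hsum
    have h3 : ∑ Y ∈ F.supp, F.w Y * (eta F C m Y * |f Y - e|) =
        ∑ X ∈ F.supp, F.w X * eta F C m X * |f X - e| := sum_congr rfl fun X _ => by ring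
    rw [h3] at hsum
    push_cast
    linarith

open Classical in
/-- consequence for a set from which `C` is hit with probability at least `q` -/
theorem hit_set (F : Flow c) (C : ℤ → Prop) (f : ℤ → ℝ) (e : ℝ) (m : ℕ)
    (A : Finset ℤ) (hA : A ⊆ F.supp) (w0 wM q : ℝ) (hw0 : 0 ≤ w0)
    (hwM : ∀ X, F.w X ≤ wM) (hAw : ∀ X ∈ A, w0 ≤ F.w X) (hq0 : 0 ≤ q)
    (hq : ∀ X ∈ A, q ≤ eta F C m X) :
    w0 * q * ∑ X ∈ A, |f X - e| ≤
      m * F.E1 f + (m + 1) * (wM * ∑ X ∈ F.supp.filter C, |f X - e|) := by
  have h1 := hit F C f e m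
  have h2 : w0 * q * ∑ X ∈ A, |f X - e| ≤ ∑ X ∈ F.supp, F.w X * eta F C m X * |f X - e| := by
    rw [mul_sum]
    refine le_trans (sum_le_sum fun X hX => ?_)
      (sum_le_sum_of_subset_of_nonneg hA fun X _ _ =>
        mul_nonneg (mul_nonneg (F.w_nonneg X) (eta_nonneg F C m X)) (abs_nonneg _))
    refine mul_le_mul_of_nonneg_right ?_ (abs_nonneg _)
    exact mul_le_mul (hAw X hX) (hq X hX) hq0 (F.w_nonneg X)
  have h3 : ∑ X ∈ F.supp.filter C, F.w X * |f X - e| ≤
      wM * ∑ X ∈ F.supp.filter C, |f X - e| := by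
    rw [mul_sum]
    exact sum_le_sum fun X _ => mul_le_mul_of_nonneg_right (hwM X) (abs_nonneg _)
  have h4 : ((m : ℝ) + 1) * ∑ X ∈ F.supp.filter C, F.w X * |f X - e| ≤
      (m + 1) * (wM * ∑ X ∈ F.supp.filter C, |f X - e|) :=
    mul_le_mul_of_nonneg_left h3 (by positivity)
  exact (h2.trans h1).trans (add_le_add le_rfl h4)

open Classical in
/-- energy of the indicator of a set which grows to `U'` in one move -/
theorem E1_ind_le (F : Flow c) (U U' : Set ℤ) (hUU : U ⊆ U')
    (hstep : ∀ X ∈ U, ∀ v, F.W X v ≠ 0 → T c v X ∈ U') :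
    F.E1 (fun X => if X ∈ U then 1 else 0) ≤
      2 * ∑ Y ∈ F.supp.filter (fun Y => Y ∈ U' ∧ Y ∉ U), F.w Y := by
  set f : ℤ → ℝ := fun X => if X ∈ U then 1 else 0 with hf
  set h : ℤ → ℝ := fun Y => if Y ∈ U' ∧ Y ∉ U then 1 else 0 with hh
  have h1 := F.push f
  have h2 := F.push h
  have h3 : ∑ Y ∈ F.supp, F.w Y * f Y = ∑ X ∈ F.supp, ∑ v, F.W X v * f X := by
    refine sum_congr rfl fun X _ => ?_
    unfold Flow.w; rw [sum_mul]
  have key : ∀ X ∈ F.supp, ∀ v, F.W X v * |f (T c v X) - f X| ≤
      2 * (F.W X v * h (T c v X)) + (F.W X v * f (T c v X) - F.W X v * f X) := by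
    intro X _ v
    by_cases hW : F.W X v = 0
    · rw [hW]; simp
    · have hWp : 0 < F.W X v := lt_of_le_of_ne (F.nonneg X v) (Ne.symm hW)
      by_cases hX : X ∈ U
      · have hT := hstep X hX v hW
        by_cases hTU : T c v X ∈ U
        · have e1 : f (T c v X) = 1 := by simp only [hf]; rw [if_pos hTU]
          have e2 : f X = 1 := by simp only [hf]; rw [if_pos hX]
          have e3 : h (T c v X) = 0 := by
            simp only [hh]; rw [if_neg]; intro hc; exact hc.2 hTU
          rw [e1, e2, e3]; norm_num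
        · have e1 : f (T c v X) = 0 := by simp only [hf]; rw [if_neg hTU]
          have e2 : f X = 1 := by simp only [hf]; rw [if_pos hX]
          have e3 : h (T c v X) = 1 := by simp only [hh]; rw [if_pos ⟨hT, hTU⟩]
          rw [e1, e2, e3]; norm_num; linarith
      · have e2 : f X = 0 := by simp only [hf]; rw [if_neg hX]
        have e4 : 0 ≤ h (T c v X) := by simp only [hh]; split_ifs <;> norm_num
        have e5 : 0 ≤ f (T c v X) := by simp only [hf]; split_ifs <;> norm_num
        rw [e2, sub_zero, abs_of_nonneg e5]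
        have := mul_nonneg hWp.le e4
        linarith
  have hsum : F.E1 f ≤ ∑ X ∈ F.supp, ∑ v, (2 * (F.W X v * h (T c v X)) +
      (F.W X v * f (T c v X) - F.W X v * f X)) :=
    sum_le_sum fun X hX => sum_le_sum fun v _ => key X hX v
  have hexp : ∑ X ∈ F.supp, ∑ v, (2 * (F.W X v * h (T c v X)) +
      (F.W X v * f (T c v X) - F.W X v * f X)) =
      2 * ∑ X ∈ F.supp, ∑ v, F.W X v * h (T c v X) +
      (∑ X ∈ F.supp, ∑ v, F.W X v * f (T c v X) - ∑ X ∈ F.supp, ∑ v, F.W X v * f X) := by
    rw [mul_sum, ← sum_sub_distrib, ← sum_add_distrib]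
    refine sum_congr rfl fun X _ => ?_
    rw [mul_sum, ← sum_sub_distrib, ← sum_add_distrib]
  rw [hexp, h1, h3, h2, sub_self, add_zero] at hsum
  have h6 : ∑ Y ∈ F.supp, F.w Y * h Y =
      ∑ Y ∈ F.supp.filter (fun Y => Y ∈ U' ∧ Y ∉ U), F.w Y := by
    rw [sum_filter]
    refine sum_congr rfl fun Y _ => ?_
    simp only [hh]
    split_ifs <;> simp
  rw [h6] at hsum
  exact hsum

end H54RP
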