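import Pool.Agent.H54.RP.Iter

/-!
Team RP (MP_a57ff3_nt), helper54. A 0/1-valued function with small variation at scale `n` is constant
up to few points.
-/

namespace H54RP

open Finset

theorem U_sub_le (f : ℤ → ℝ) (a b : ℤ) (m i : ℕ) (hi : a + i ≤ b - m + 1) :
    |∑ h ∈ range m, f (a + i + (h : ℕ)) - ∑ h ∈ range m, f (a + (h : ℕ))| ≤ vr f a b m := by
  have h1 : ∀ j : ℕ, ∑ h ∈ range m, f (a + (j + 1 : ℕ) + (h : ℕ)) -
      ∑ h ∈ range m, f (a + (j : ℕ) + (h : ℕ)) = f (a + j + m) - f (a + j) := by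
    intro j
    have e : ∀ h : ℕ, f (a + (j + 1 : ℕ) + (h : ℕ)) = f (a + (j : ℕ) + ((h + 1 : ℕ) : ℤ)) := by
      intro h; congr 1; push_cast; ring
    rw [sum_congr rfl fun h _ => e h]
    have h2 := sum_range_succ (fun h : ℕ => f (a + (j : ℕ) + ((h : ℕ) : ℤ))) m
    have h3 := sum_range_succ' (fun h : ℕ => f (a + (j : ℕ) + ((h : ℕ) : ℤ))) m
    rw [h2] at h3
    simp only [Nat.cast_zero, add_zero] at h3
    linarith
  have h2 : ∀ j : ℕ, |∑ h ∈ range m, f (a + (j : ℕ) + (h : ℕ)) - ∑ h ∈ range m, f (a + (h : ℕ))| ≤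
      ∑ k ∈ range j, |f (a + k + m) - f (a + k)| := by
    intro j
    induction j with
    | zero => simp
    | succ j ih =>
      rw [sum_range_succ]
      have h3 := h1 j
      have h4 : ∑ h ∈ range m, f (a + (j + 1 : ℕ) + (h : ℕ)) - ∑ h ∈ range m, f (a + (h : ℕ)) =
          (∑ h ∈ range m, f (a + (j : ℕ) + (h : ℕ)) - ∑ h ∈ range m, f (a + (h : ℕ))) +
          (f (a + j + m) - f (a + j)) := by linarith
      rw [h4]
      exact (abs_add_le _ _).trans (add_le_add ih le_rfl)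
  refine (h2 i).trans ?_
  unfold vr
  have e3 : ∑ k ∈ range i, |f (a + k + m) - f (a + k)| =
      ∑ Z ∈ (range i).map ⟨fun k : ℕ => a + (k : ℤ), fun x y h => by simpa using h⟩,
        |f (Z + (m : ℕ)) - f Z| := by
    rw [sum_map]; rfl
  rw [e3]
  refine sum_le_sum_of_subset_of_nonneg ?_ fun _ _ _ => abs_nonneg _
  intro Z hZ
  rw [mem_map] at hZ
  obtain ⟨k, hk, rfl⟩ := hZ
  rw [mem_range] at hk
  rw [mem_Icc]
  constructor
  · change a ≤ a + (k : ℤ)
    omega
  · change a + (k : ℤ) ≤ b - (m : ℤ)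
    omega

theorem exists_good_shift (f : ℤ → ℝ) (a b : ℤ) (n : ℕ) (hn : 1 ≤ n) :
    ∃ m, n ≤ 2 * m ∧ m ≤ n ∧ (n : ℝ) * vr f a b m ≤ 2 * Ds f a b n := by
  by_contra hcon
  push Not at hcon
  set S := Icc ((n + 1) / 2) n with hS
  have h1 : ∀ m ∈ S, 2 * Ds f a b n < n * vr f a b m := by
    intro m hm
    rw [hS, mem_Icc] at hm
    exact hcon m (by omega) hm.2
  have hne : S.Nonempty := ⟨n, by rw [hS, mem_Icc]; omega⟩
  have h2 := sum_lt_sum_of_nonempty hne h1
  rw [sum_const, nsmul_eq_mul, ← mul_sum] at h2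
  have h3 : ∑ m ∈ S, vr f a b m ≤ Ds f a b n := by
    unfold Ds
    refine sum_le_sum_of_subset_of_nonneg ?_ fun _ _ _ => vr_nonneg _ _ _ _
    rw [hS]
    exact Icc_subset_Icc (by omega) le_rfl
  have hcard : (n : ℝ) ≤ 2 * (S.card : ℝ) := by
    have : n ≤ 2 * S.card := by
      rw [hS, Nat.card_Icc]; omega
    exact_mod_cast this
  have h4 := Ds_nonneg f a b n
  have hn' : (0 : ℝ) ≤ n := Nat.cast_nonneg n
  nlinarith [mul_le_mul_of_nonneg_left h3 hn']

/-- near-constancy, `Ds ≤ n ^ 2 / 16` -/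
theorem major_small (f : ℤ → ℝ) (hf : ∀ X, f X = 0 ∨ f X = 1) (a b : ℤ) (n : ℕ) (hn : 1 ≤ n)
    (hab : a ≤ b - n) (hs : 16 * Ds f a b n ≤ (n : ℝ) * n) :
    ∃ e : ℝ, (e = 0 ∨ e = 1) ∧
      (n : ℝ) * (((Icc a (b - n)).filter fun X => f X ≠ e).card : ℝ) ≤ 8 * Ds f a b n := by
  classical
  obtain ⟨m, hm1, hm2, hm3⟩ := exists_good_shift f a b n hn
  have hm0 : 0 < m := by omega
  have hmR : (0 : ℝ) < m := by exact_mod_cast hm0
  have hnR : (0 : ℝ) < n := by exact_mod_cast hn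
  have hm1R : (n : ℝ) ≤ 2 * m := by exact_mod_cast hm1
  have hm2R : (m : ℝ) ≤ n := by exact_mod_cast hm2
  have hD := Ds_nonneg f a b n
  set U : ℤ → ℝ := fun X => ∑ h ∈ range m, f (X + (h : ℕ)) with hU
  -- oscillation of U
  have hosc : ∀ X ∈ Icc a (b - n), |U X - U a| ≤ (m : ℝ) / 4 := by
    intro X hX
    rw [mem_Icc] at hX
    have h1 := U_sub_le f a b m (X - a).toNat (by omega)
    have e : a + ((X - a).toNat : ℤ) = X := by omega
    rw [e] at h1
    have h2 : vr f a b m ≤ (m : ℝ) / 4 := by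
      have h3 : (n : ℝ) * vr f a b m ≤ n * n / 8 := by linarith
      have h4 : vr f a b m ≤ n / 8 := by
        have h5 : (n : ℝ) * vr f a b m ≤ n * (n / 8) := by linarith
        exact le_of_mul_le_mul_left h5 hnR
      linarith
    exact h1.trans h2
  -- closeness of f to U / m
  have hclose : ∑ X ∈ Icc a (b - n), |m * f X - U X| ≤ Ds f a b n := by
    have h1 : ∀ X, |m * f X - U X| ≤ ∑ h ∈ range m, |f (X + (h : ℕ)) - f X| := by
      intro X
      have e : m * f X - U X = ∑ h ∈ range m, (f X - f (X + (h : ℕ))) := by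
        rw [hU, sum_sub_distrib, sum_const, card_range, nsmul_eq_mul]
      rw [e]
      refine (abs_sum_le_sum_abs _ _).trans (sum_le_sum fun h _ => ?_)
      rw [abs_sub_comm]
    refine (sum_le_sum fun X _ => h1 X).trans ?_
    rw [sum_comm]
    refine (le_trans ?_ (sum_vr_range_le f a b m)).trans (Ds_mono_n f a b hm2)
    refine sum_le_sum fun h hh => ?_
    rw [mem_range] at hh
    unfold vr
    refine sum_le_sum_of_subset_of_nonneg (Icc_subset_Icc le_rfl ?_) fun _ _ _ => abs_nonneg _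
    omega
  have key : ∀ e : ℝ, (∀ X ∈ Icc a (b - n), f X ≠ e → (m : ℝ) / 4 ≤ |m * f X - U X|) →
      (n : ℝ) * (((Icc a (b - n)).filter fun X => f X ≠ e).card : ℝ) ≤ 8 * Ds f a b n := by
    intro e he
    have h1 : ∑ X ∈ (Icc a (b - n)).filter (fun X => f X ≠ e), (m : ℝ) / 4 ≤
        ∑ X ∈ Icc a (b - n), |m * f X - U X| := by
      refine (sum_le_sum fun X hX => ?_).trans
        (sum_le_sum_of_subset_of_nonneg (filter_subset _ _) fun _ _ _ => abs_nonneg _)
      rw [mem_filter] at hX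
      exact he X hX.1 hX.2
    rw [sum_const, nsmul_eq_mul] at h1
    have h2 := h1.trans hclose
    have h3 : (0 : ℝ) ≤ (((Icc a (b - n)).filter fun X => f X ≠ e).card : ℝ) := Nat.cast_nonneg _
    nlinarith
  rcases le_total (U a) (m / 2) with hUa | hUa
  · refine ⟨0, Or.inl rfl, key 0 fun X hX hne => ?_⟩
    have hf1 : f X = 1 := (hf X).resolve_left hne
    have h1 := hosc X hX
    rw [abs_le] at h1
    rw [hf1]
    refine le_trans ?_ (le_abs_self _)
    linarith
  · refine ⟨1, Or.inr rfl, key 1 fun X hX hne => ?_⟩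
    have hf1 : f X = 0 := (hf X).resolve_right hne
    have h1 := hosc X hX
    rw [abs_le] at h1
    rw [hf1]
    refine le_trans ?_ (neg_abs_le _ |> neg_le.1)
    linarith

/-- near-constancy in general -/
theorem major (f : ℤ → ℝ) (hf : ∀ X, f X = 0 ∨ f X = 1) (a b : ℤ) (n : ℕ) (hn : 1 ≤ n)
    (hab : a ≤ b - n) (R : ℝ) (hR : 1 ≤ R) (hlen : ((b : ℝ) - a) ≤ R * n) :
    ∃ e : ℝ, (e = 0 ∨ e = 1) ∧
      (n : ℝ) * (((Icc a (b - n)).filter fun X => f X ≠ e).card : ℝ) ≤ 16 * R * Ds f a b n := by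
  have hD := Ds_nonneg f a b n
  have hnR : (0 : ℝ) < n := by exact_mod_cast hn
  by_cases hs : 16 * Ds f a b n ≤ (n : ℝ) * n
  · obtain ⟨e, he, h⟩ := major_small f hf a b n hn hab hs
    refine ⟨e, he, h.trans ?_⟩
    nlinarith
  · refine ⟨0, Or.inl rfl, ?_⟩
    push Not at hs
    have h1 : (((Icc a (b - n)).filter fun X => f X ≠ 0).card : ℝ) ≤ R * n := by
      have h2 : ((Icc a (b - n)).filter fun X => f X ≠ 0).card ≤ (Icc a (b - n)).card :=
        card_filter_le _ _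
      have h3 : ((Icc a (b - n)).card : ℝ) = (b : ℝ) - n + 1 - a := by
        rw [Int.card_Icc]
        have : ((b - n + 1 - a).toNat : ℤ) = b - n + 1 - a := by omega
        have h4 : (((b - n + 1 - a).toNat : ℤ) : ℝ) = ((b - n + 1 - a : ℤ) : ℝ) := by rw [this]
        push_cast at h4
        exact_mod_cast h4
      have h5 : (((Icc a (b - n)).filter fun X => f X ≠ 0).card : ℝ) ≤ (Icc a (b - n)).card := by
        exact_mod_cast h2
      rw [h3] at h5
      have hn1 : (1 : ℝ) ≤ n := by exact_mod_cast hn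
      linarith
    calc (n : ℝ) * (((Icc a (b - n)).filter fun X => f X ≠ 0).card : ℝ) ≤ n * (R * n) :=
          mul_le_mul_of_nonneg_left h1 hnR.le
      _ = R * (n * n) := by ring
      _ ≤ R * (16 * Ds f a b n) := mul_le_mul_of_nonneg_left hs.le (by linarith)
      _ = _ := by ring

end H54RP
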