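import Pool.Agent.H98.RP2.Defs

/-!
Team RP (MP_a57ff3_nt), helper54. Availability of the arc `(1,1)` on the left side, case A.
-/

set_option autoImplicit false
set_option maxHeartbeats 4000000

namespace H54RP

open Pool.Agent.H98.RP2

theorem avA_11 {P : Par} (h : HA P) (j : ℤ) (h1 : -2 * P.M + P.g ≤ j)
    (h2 : j < -4 * P.g - 1 - P.D) : 1 ≤ P.D1 P.thA (j + P.Q) := by
  obtain ⟨N, M, D, g⟩ := P
  obtain ⟨hN, hM, g0, gD, gN, D1, D2⟩ := h
  simp only at *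
  simp only [Par.D1, Par.R, Par.G, Par.ZG, Par.thA, iv, Par.al, Par.be, Par.Q, st]
  repeat' (split <;> try (exfalso; omega))
  all_goals omega

theorem noiseA {P : Par} (h : HA P) (j : ℤ)
    (h1 : (P.M + 2 + 4 * P.g ≤ j ∧ P.M + 2 + 4 * P.g + P.D ≤ j ∧ j < P.N - 4 * P.g - 1 ∧
      j < P.N - 4 * P.g - 1 - P.D) ∨
      (P.M + 2 + 4 * P.g - P.N ≤ j ∧ P.M + 2 + 4 * P.g + P.D - P.N ≤ j ∧ j < - 4 * P.g - 1 ∧
      j < - 4 * P.g - 1 - P.D)) :
    1 ≤ P.npA j ∧ P.npA j < 2 * P.w j ∧ 1 ≤ P.nmA j ∧ P.nmA j < 2 * P.w j := by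
  obtain ⟨N, M, D, g⟩ := P
  obtain ⟨hN, hM, g0, gD, gN, D1, D2⟩ := h
  simp only at *
  simp only [Par.npA, Par.nmA, Par.w, iv, Par.al, Par.be, st]
  rcases h1 with h1 | h1
  · refine ⟨?_, ?_, ?_, ?_⟩
    all_goals
      repeat' (split <;> try (exfalso; omega))
    all_goals omega
  · refine ⟨?_, ?_, ?_, ?_⟩
    all_goals
      repeat' (split <;> try (exfalso; omega))
    all_goals omega

end H54RP
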