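import Pool.Agent.H54.RP.Star

/-!
Team RP (MP_a57ff3_nt), helper54. Average over labels: the safe landing probability from an interval
of `4 ^ m` consecutive states is at least `p0` on average over the labels.
-/

namespace H54RP

open Finset

variable {ι : Type*} [Fintype ι] {c : ι → ℤ}

/-- the weights are constant on residue classes mod 4 in `[x, x + R]` -/
def Unif (F : Flow c) (x R : ℤ) : Prop :=
  ∀ X Y, x ≤ X → X ≤ x + R → x ≤ Y → Y ≤ x + R → (4 : ℤ) ∣ Y - X → ∀ v, F.W X v = F.W Y v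

theorem Unif.mono {F : Flow c} {x R x' R' : ℤ} (h : Unif F x R) (h1 : x ≤ x')
    (h2 : x' + R' ≤ x + R) : Unif F x' R' := by
  intro X Y a1 a2 a3 a4 hd v
  exact h X Y (by omega) (by omega) (by omega) (by omega) hd v

open Classical in
/-- safety factor, `m` moves remain, shifts `0 ≤ s ≤ S` -/
noncomputable def chi (F : Flow c) (S : ℤ) (m : ℕ) (X : ℤ) : ℝ :=
  if Unif F X (S * 4 ^ m) then 1 else 0

theorem chi_nonneg (F : Flow c) (S : ℤ) (m : ℕ) (X : ℤ) : 0 ≤ chi F S m X := by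
  unfold chi; split_ifs <;> norm_num

theorem chi_le_one (F : Flow c) (S : ℤ) (m : ℕ) (X : ℤ) : chi F S m X ≤ 1 := by
  unfold chi; split_ifs <;> norm_num

theorem chi_safe (F : Flow c) (S : ℤ) (m : ℕ) (X s : ℤ) (hs0 : 0 ≤ s) (hs : s ≤ S)
    (h : chi F S (m + 1) X ≠ 0) (v : ι) : F.W (X + 4 ^ (m + 1) * s) v = F.W X v := by
  have hu : Unif F X (S * 4 ^ (m + 1)) := by
    unfold chi at h
    by_contra hc
    rw [if_neg hc] at h
    exact h rfl
  have hp : (0 : ℤ) < 4 ^ (m + 1) := by positivity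
  refine (hu X (X + 4 ^ (m + 1) * s) le_rfl ?_ ?_ ?_ ?_ v).symm
  · nlinarith
  · nlinarith
  · nlinarith
  · rw [add_sub_cancel_left, pow_succ]
    exact ⟨4 ^ m * s, by ring⟩

/-- data: labelled flows with legal letters -/
structure LFam (c : ι → ℤ) (γ : Type*) where
  G : Finset γ
  F : γ → Flow c
  leg : ℤ → ι → Prop
  leg_add : ∀ X v, leg (X + 4) v ↔ leg X v
  hW : ∀ g ∈ G, ∀ X v, (F g).W X v ≠ 0 → leg X v
  legs : ℤ → Finset ι
  legs_mem : ∀ X v, v ∈ legs X ↔ leg X v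
  count : ∀ X, ∑ r ∈ range 4, (legs (X + (r : ℕ))).card ≤ 12
  kB : ℝ
  kB0 : 0 ≤ kB
  bad : ∀ x R : ℤ, 1 ≤ R → ∀ B : Finset γ, B ⊆ G → (∀ g ∈ B, ¬ Unif (F g) x R) →
    (B.card : ℝ) ≤ kB * R

namespace LFam

variable {γ : Type*} (D : LFam c γ)

theorem leg_add4 (X : ℤ) (i : ℕ) (v : ι) : D.leg (X + 4 * i) v ↔ D.leg X v := by
  induction i with
  | zero => simp
  | succ i ih =>
    rw [← ih, ← D.leg_add (X + 4 * i) v]
    push_cast
    ring_nf

theorem legs_add4 (X : ℤ) (i : ℕ) : D.legs (X + 4 * i) = D.legs X := by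
  ext v
  rw [D.legs_mem, D.legs_mem, D.leg_add4]

/-- upper bound for the probability of a path which is not safe with `m` moves -/
noncomputable def H (S : ℤ) (g : γ) : ℕ → ℤ → ℝ
  | 0, _ => 0
  | m + 1, X => (1 - chi (D.F g) S (m + 1) X) + ∑ v ∈ D.legs X, H S g m (T c v X)

theorem H_succ (S : ℤ) (g : γ) (m : ℕ) (X : ℤ) : D.H S g (m + 1) X =
    (1 - chi (D.F g) S (m + 1) X) + ∑ v ∈ D.legs X, D.H S g m (T c v X) := rfl

theorem H_nonneg (S : ℤ) (g : γ) (m : ℕ) (X : ℤ) : 0 ≤ D.H S g m X := by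
  induction m generalizing X with
  | zero => simp [H]
  | succ m ih =>
    rw [H_succ]
    have := chi_le_one (D.F g) S (m + 1) X
    have h2 : 0 ≤ ∑ v ∈ D.legs X, D.H S g m (T c v X) := sum_nonneg fun v _ => ih _
    linarith

theorem K_eq_zero {g : γ} (hg : g ∈ D.G) {X : ℤ} {v : ι} (h : v ∉ D.legs X) :
    (D.F g).K X v = 0 := by
  have : (D.F g).W X v = 0 := by
    by_contra h1
    exact h ((D.legs_mem X v).2 (D.hW g hg X v h1))
  unfold Flow.K
  rw [this, zero_div]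

theorem sum_K_legs {g : γ} (hg : g ∈ D.G) (X : ℤ) (q : ι → ℝ) :
    ∑ v, (D.F g).K X v * q v = ∑ v ∈ D.legs X, (D.F g).K X v * q v := by
  symm
  refine sum_subset (subset_univ _) fun v _ hv => ?_
  rw [D.K_eq_zero hg hv, zero_mul]

/-- `Fl ≥ Pr - H` -/
theorem Pr_sub_H_le {S : ℤ} {g : γ} (hg : g ∈ D.G) {Om : ℤ → ℝ} (hO : ∀ X, 0 ≤ Om X)
    (hO1 : ∀ X, Om X ≤ 1) (m : ℕ) (X : ℤ) :
    Fl (D.F g) (fun _ _ => 1) Om m X - D.H S g m X ≤ Fl (D.F g) (chi (D.F g) S) Om m X := by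
  induction m generalizing X with
  | zero => simp [Fl, H]
  | succ m ih =>
    have hPr0 := Fl_nonneg (D.F g) (χ := fun _ _ => 1) (fun _ _ => zero_le_one) hO
    have hPr1 := Fl_le_one (D.F g) (χ := fun _ _ => 1) (fun _ _ => zero_le_one)
      (fun _ _ => le_rfl) hO hO1
    have hFl0 := Fl_nonneg (D.F g) (chi_nonneg (D.F g) S) hO
    by_cases hc : chi (D.F g) S (m + 1) X = 0
    · have h1 := hPr1 (m + 1) X
      have h2 : 1 ≤ D.H S g (m + 1) X := by
        rw [H_succ, hc]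
        have : 0 ≤ ∑ v ∈ D.legs X, D.H S g m (T c v X) := sum_nonneg fun v _ => D.H_nonneg S g m _
        linarith
      have h3 := hFl0 (m + 1) X
      linarith
    · have hc1 : chi (D.F g) S (m + 1) X = 1 := by
        unfold chi at hc ⊢
        split_ifs with h
        · rfl
        · rw [if_neg h] at hc; exact absurd rfl hc
      have e1 : Fl (D.F g) (chi (D.F g) S) Om (m + 1) X =
          ∑ v, (D.F g).K X v * Fl (D.F g) (chi (D.F g) S) Om m (T c v X) := by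
        simp only [Fl]; rw [hc1, one_mul]
      have e2 : Fl (D.F g) (fun _ _ => 1) Om (m + 1) X =
          ∑ v, (D.F g).K X v * Fl (D.F g) (fun _ _ => 1) Om m (T c v X) := by
        simp only [Fl]; rw [one_mul]
      have e3 : D.H S g (m + 1) X = ∑ v ∈ D.legs X, D.H S g m (T c v X) := by
        rw [H_succ, hc1, sub_self, zero_add]
      rw [e1, e2, e3]
      have h1 : ∑ v, (D.F g).K X v * Fl (D.F g) (fun _ _ => 1) Om m (T c v X) ≤
          ∑ v, (D.F g).K X v * Fl (D.F g) (chi (D.F g) S) Om m (T c v X) +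
          ∑ v, (D.F g).K X v * D.H S g m (T c v X) := by
        rw [← sum_add_distrib]
        refine sum_le_sum fun v _ => ?_
        rw [← mul_add]
        refine mul_le_mul_of_nonneg_left ?_ ((D.F g).K_nonneg X v)
        have := ih (T c v X)
        linarith
      have h2 : ∑ v, (D.F g).K X v * D.H S g m (T c v X) ≤
          ∑ v ∈ D.legs X, D.H S g m (T c v X) := by
        rw [D.sum_K_legs hg]
        refine sum_le_sum fun v _ => ?_
        have hK : (D.F g).K X v ≤ 1 := by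
          refine le_trans ?_ ((D.F g).sum_K_le X)
          exact single_le_sum (f := fun v => (D.F g).K X v) (fun v _ => (D.F g).K_nonneg X v)
            (mem_univ v)
        have := D.H_nonneg S g m (T c v X)
        nlinarith
      linarith

end LFam

/-- splitting a sum over `4 ^ (m+1)` consecutive indices by residue mod 4 -/
theorem sum_range_four (m : ℕ) (q : ℕ → ℝ) :
    ∑ i ∈ range (4 ^ (m + 1)), q i = ∑ r ∈ range 4, ∑ i ∈ range (4 ^ m), q (r + 4 * i) := by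
  rw [← sum_product' (range 4) (range (4 ^ m)) (f := fun r i => q (r + 4 * i))]
  symm
  refine Finset.sum_nbij' (fun p => p.1 + 4 * p.2) (fun i => (i % 4, i / 4)) ?_ ?_ ?_ ?_ ?_
  · rintro ⟨r, i⟩ h
    simp only [mem_product, mem_range] at h ⊢
    rw [pow_succ]
    omega
  · intro i h
    simp only [mem_product, mem_range] at h ⊢
    rw [pow_succ] at h
    omega
  · rintro ⟨r, i⟩ h
    simp only [mem_product, mem_range] at h
    simp only [Prod.mk.injEq]
    omega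
  · intro i h
    simp only
    omega
  · rintro ⟨r, i⟩ h
    rfl

namespace LFam

variable {γ : Type*} (D : LFam c γ)

/-- bound for the average of `H` -/
theorem sum_H_le {S : ℤ} (hS : 1 ≤ S) (m : ℕ) (x : ℤ) :
    ∑ g ∈ D.G, ∑ i ∈ range (4 ^ m), D.H S g m (x + (i : ℕ)) ≤ 4 * D.kB * S * 4 ^ m * 4 ^ m := by
  have hS' : (1 : ℝ) ≤ S := by exact_mod_cast hS
  have hk := D.kB0
  induction m generalizing x with
  | zero =>
    simp only [H, sum_const_zero]
    positivity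
  | succ m ih =>
    have h1 : ∀ g, ∑ i ∈ range (4 ^ (m + 1)), D.H S g (m + 1) (x + (i : ℕ)) =
        ∑ i ∈ range (4 ^ (m + 1)), (1 - chi (D.F g) S (m + 1) (x + (i : ℕ))) +
        ∑ r ∈ range 4, ∑ v ∈ D.legs (x + (r : ℕ)), ∑ i ∈ range (4 ^ m),
          D.H S g m (T c v (x + (r : ℕ)) + (i : ℕ)) := by
      intro g
      simp only [H_succ]
      rw [sum_add_distrib]
      congr 1
      rw [sum_range_four]
      refine sum_congr rfl fun r _ => ?_
      rw [sum_comm]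
      refine sum_congr rfl fun i _ => ?_
      have e : (x + ((r + 4 * i : ℕ) : ℤ)) = (x + (r : ℕ)) + 4 * (i : ℕ) := by push_cast; ring
      rw [e, D.legs_add4]
      refine sum_congr rfl fun v _ => ?_
      rw [T_add]
    rw [sum_congr rfl fun g _ => h1 g, sum_add_distrib]
    have h2 : ∑ g ∈ D.G, ∑ i ∈ range (4 ^ (m + 1)), (1 - chi (D.F g) S (m + 1) (x + (i : ℕ))) ≤
        4 ^ (m + 1) * (D.kB * (S * 4 ^ (m + 1))) := by
      rw [sum_comm]
      have h3 : ∀ i ∈ range (4 ^ (m + 1)),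
          ∑ g ∈ D.G, (1 - chi (D.F g) S (m + 1) (x + (i : ℕ))) ≤ D.kB * (S * 4 ^ (m + 1)) := by
        classical
        intro i _
        have e : ∀ g, (1 - chi (D.F g) S (m + 1) (x + (i : ℕ))) =
            if ¬ Unif (D.F g) (x + (i : ℕ)) (S * 4 ^ (m + 1)) then (1 : ℝ) else 0 := by
          intro g
          unfold chi
          by_cases h : Unif (D.F g) (x + (i : ℕ)) (S * 4 ^ (m + 1))
          · simp [h]
          · simp [h]
        rw [sum_congr rfl fun g _ => e g, ← sum_filter, sum_const, nsmul_eq_mul, mul_one]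
        have := D.bad (x + (i : ℕ)) (S * 4 ^ (m + 1))
          (by have : (1 : ℤ) ≤ 4 ^ (m + 1) := one_le_pow₀ (by norm_num); nlinarith)
          (D.G.filter fun g => ¬ Unif (D.F g) (x + (i : ℕ)) (S * 4 ^ (m + 1)))
          (filter_subset _ _) (fun g hg => (mem_filter.1 hg).2)
        push_cast at this
        exact this
      calc _ ≤ ∑ i ∈ range (4 ^ (m + 1)), D.kB * (S * 4 ^ (m + 1)) := sum_le_sum h3
        _ = 4 ^ (m + 1) * (D.kB * (S * 4 ^ (m + 1))) := by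
          rw [sum_const, card_range, nsmul_eq_mul]; push_cast; ring
    have h4 : ∑ g ∈ D.G, ∑ r ∈ range 4, ∑ v ∈ D.legs (x + (r : ℕ)), ∑ i ∈ range (4 ^ m),
          D.H S g m (T c v (x + (r : ℕ)) + (i : ℕ)) ≤ 12 * (4 * D.kB * S * 4 ^ m * 4 ^ m) := by
      rw [sum_comm]
      have h5 : ∀ r ∈ range 4, ∑ g ∈ D.G, ∑ v ∈ D.legs (x + (r : ℕ)), ∑ i ∈ range (4 ^ m),
          D.H S g m (T c v (x + (r : ℕ)) + (i : ℕ)) ≤
          ((D.legs (x + (r : ℕ))).card : ℝ) * (4 * D.kB * S * 4 ^ m * 4 ^ m) := by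
        intro r _
        rw [sum_comm, ← nsmul_eq_mul, ← sum_const]
        exact sum_le_sum fun v _ => ih _
      refine (sum_le_sum h5).trans ?_
      rw [← sum_mul]
      refine mul_le_mul_of_nonneg_right ?_ (by positivity)
      exact_mod_cast D.count x
    calc _ ≤ 4 ^ (m + 1) * (D.kB * (S * 4 ^ (m + 1))) + 12 * (4 * D.kB * S * 4 ^ m * 4 ^ m) :=
          add_le_add h2 h4
      _ = 4 * D.kB * S * 4 ^ (m + 1) * 4 ^ (m + 1) := by ring

open Classical in
/-- defect of the landing probability on `[x, x + 4 ^ m)` (sum, not average) -/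
noncomputable def Df (S : ℤ) (Om : ℤ → ℝ) (p : ℝ) (g : γ) (m : ℕ) (x : ℤ) : ℝ :=
  if ∀ i : ℕ, i < 4 ^ m → (D.F g).w (x + i) ≠ 0 then
    max 0 (p * 4 ^ m - ∑ i ∈ range (4 ^ m), Fl (D.F g) (chi (D.F g) S) Om m (x + (i : ℕ))) else 0

theorem Df_nonneg (S : ℤ) (Om : ℤ → ℝ) (p : ℝ) (g : γ) (m : ℕ) (x : ℤ) :
    0 ≤ D.Df S Om p g m x := by
  unfold Df
  split_ifs
  · exact le_max_left _ _
  · exact le_rfl

/-- one step of the recursion for the defect -/
theorem Df_succ {S : ℤ} (hS : 1 ≤ S) {Om : ℤ → ℝ} {p : ℝ} {g : γ} (hg : g ∈ D.G) (m : ℕ) (x : ℤ) (hu : Unif (D.F g) x (2 * (S * 4 ^ (m + 1)))) :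
    D.Df S Om p g (m + 1) x ≤ ∑ r ∈ range 4, ∑ v ∈ D.legs (x + (r : ℕ)),
      D.Df S Om p g m (T c v (x + (r : ℕ))) := by
  have hS0 : 0 ≤ ∑ r ∈ range 4, ∑ v ∈ D.legs (x + (r : ℕ)),
      D.Df S Om p g m (T c v (x + (r : ℕ))) :=
    sum_nonneg fun r _ => sum_nonneg fun v _ => D.Df_nonneg _ _ _ _ _ _
  by_cases hsup : ∀ i : ℕ, i < 4 ^ (m + 1) → (D.F g).w (x + i) ≠ 0
  swap
  · unfold Df
    rw [if_neg hsup]
    exact hS0
  have e0 : D.Df S Om p g (m + 1) x = max 0 (p * 4 ^ (m + 1) -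
      ∑ i ∈ range (4 ^ (m + 1)), Fl (D.F g) (chi (D.F g) S) Om (m + 1) (x + (i : ℕ))) := by
    unfold Df; rw [if_pos hsup]
  rw [e0]
  refine max_le hS0 ?_
  have hp4 : (1 : ℤ) ≤ 4 ^ (m + 1) := one_le_pow₀ (by norm_num)
  have hSp : (4 : ℤ) ^ (m + 1) ≤ S * 4 ^ (m + 1) := by nlinarith
  -- chi = 1 on the interval
  have hchi : ∀ i : ℕ, i < 4 ^ (m + 1) → chi (D.F g) S (m + 1) (x + i) = 1 := by
    intro i hi
    unfold chi
    rw [if_pos]
    have hi' : (i : ℤ) < 4 ^ (m + 1) := by exact_mod_cast hi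
    exact hu.mono (by omega) (by linarith)
  have hWc : ∀ r : ℕ, r < 4 → ∀ i : ℕ, i < 4 ^ m → ∀ v,
      (D.F g).W (x + (r : ℕ) + 4 * (i : ℕ)) v = (D.F g).W (x + (r : ℕ)) v := by
    intro r hr i hi v
    have hi' : (i : ℤ) < 4 ^ m := by exact_mod_cast hi
    have hp' : (4 : ℤ) ^ (m + 1) = 4 * 4 ^ m := by ring
    refine (hu _ _ ?_ ?_ ?_ ?_ ?_ v).symm
    · omega
    · linarith [show (r : ℤ) < 4 by exact_mod_cast hr]
    · omega
    · linarith [show (r : ℤ) < 4 by exact_mod_cast hr]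
    · exact ⟨i, by ring⟩
  have hwc : ∀ r : ℕ, r < 4 → ∀ i : ℕ, i < 4 ^ m →
      (D.F g).w (x + (r : ℕ) + 4 * (i : ℕ)) = (D.F g).w (x + (r : ℕ)) := by
    intro r hr i hi
    unfold Flow.w
    exact sum_congr rfl fun v _ => hWc r hr i hi v
  have hKc : ∀ r : ℕ, r < 4 → ∀ i : ℕ, i < 4 ^ m → ∀ v,
      (D.F g).K (x + (r : ℕ) + 4 * (i : ℕ)) v = (D.F g).K (x + (r : ℕ)) v := by
    intro r hr i hi v
    unfold Flow.K
    rw [hWc r hr i hi v, hwc r hr i hi]
  have hpos4 : ∀ r : ℕ, r < 4 → r < 4 ^ (m + 1) := by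
    intro r hr
    calc r < 4 := hr
      _ = 4 ^ 1 := by norm_num
      _ ≤ 4 ^ (m + 1) := Nat.pow_le_pow_right (by norm_num) (by omega)
  have hsumFl : ∑ i ∈ range (4 ^ (m + 1)), Fl (D.F g) (chi (D.F g) S) Om (m + 1) (x + (i : ℕ)) =
      ∑ r ∈ range 4, ∑ v, (D.F g).K (x + (r : ℕ)) v * ∑ i ∈ range (4 ^ m),
        Fl (D.F g) (chi (D.F g) S) Om m (T c v (x + (r : ℕ)) + (i : ℕ)) := by
    rw [sum_range_four]
    refine sum_congr rfl fun r hr => ?_
    rw [mem_range] at hr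
    have : ∀ i ∈ range (4 ^ m), Fl (D.F g) (chi (D.F g) S) Om (m + 1) (x + ((r + 4 * i : ℕ) : ℤ)) =
        ∑ v, (D.F g).K (x + (r : ℕ)) v *
          Fl (D.F g) (chi (D.F g) S) Om m (T c v (x + (r : ℕ)) + (i : ℕ)) := by
      intro i hi
      rw [mem_range] at hi
      have hlt : r + 4 * i < 4 ^ (m + 1) := by rw [pow_succ]; omega
      have e : (x + ((r + 4 * i : ℕ) : ℤ)) = (x + (r : ℕ)) + 4 * (i : ℕ) := by push_cast; ring
      simp only [Fl]
      rw [hchi _ hlt, one_mul, e]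
      refine sum_congr rfl fun v _ => ?_
      rw [hKc r hr i hi v, T_add]
    rw [sum_congr rfl this, sum_comm]
    refine sum_congr rfl fun v _ => ?_
    rw [mul_sum]
  have hp : p * 4 ^ (m + 1) = ∑ r ∈ range 4, ∑ v, (D.F g).K (x + (r : ℕ)) v * (p * 4 ^ m) := by
    have : ∀ r ∈ range 4, ∑ v, (D.F g).K (x + (r : ℕ)) v * (p * 4 ^ m) = p * 4 ^ m := by
      intro r hr
      rw [mem_range] at hr
      rw [← sum_mul, (D.F g).sum_K _ (hsup r (hpos4 r hr)), one_mul]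
    rw [sum_congr rfl this, sum_const, card_range, nsmul_eq_mul]
    push_cast; ring
  rw [hsumFl, hp, ← sum_sub_distrib]
  refine sum_le_sum fun r hr => ?_
  rw [mem_range] at hr
  rw [← sum_sub_distrib]
  have h1 : ∀ v, (D.F g).K (x + (r : ℕ)) v * (p * 4 ^ m) - (D.F g).K (x + (r : ℕ)) v *
      ∑ i ∈ range (4 ^ m), Fl (D.F g) (chi (D.F g) S) Om m (T c v (x + (r : ℕ)) + (i : ℕ)) ≤
      (D.F g).K (x + (r : ℕ)) v * D.Df S Om p g m (T c v (x + (r : ℕ))) := by
    intro v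
    rw [← mul_sub]
    by_cases hK : (D.F g).K (x + (r : ℕ)) v = 0
    · rw [hK]; simp
    · refine mul_le_mul_of_nonneg_left ?_ ((D.F g).K_nonneg _ v)
      have hW : (D.F g).W (x + (r : ℕ)) v ≠ 0 := by
        intro h0
        apply hK
        unfold Flow.K
        rw [h0, zero_div]
      have hin : ∀ i : ℕ, i < 4 ^ m → (D.F g).w (T c v (x + (r : ℕ)) + i) ≠ 0 := by
        intro i hi h0
        have h2 := (D.F g).W_le_w_T (x + (r : ℕ) + 4 * (i : ℕ)) v
        rw [T_add, h0, hWc r hr i hi v] at h2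
        exact hW (le_antisymm h2 ((D.F g).nonneg _ v))
      unfold Df
      rw [if_pos hin]
      exact le_max_right _ _
  refine (sum_le_sum fun v _ => h1 v).trans ?_
  rw [D.sum_K_legs hg]
  refine sum_le_sum fun v _ => ?_
  have hK1 : (D.F g).K (x + (r : ℕ)) v ≤ 1 := by
    refine le_trans ?_ ((D.F g).sum_K_le (x + (r : ℕ)))
    exact single_le_sum (f := fun v => (D.F g).K (x + (r : ℕ)) v)
      (fun v _ => (D.F g).K_nonneg _ v) (mem_univ v)
  have := D.Df_nonneg S Om p g m (T c v (x + (r : ℕ)))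
  nlinarith

/-- landing hypothesis: from every interval of `4 ^ r` states of positive mass -/
def Land (Om : ℤ → ℝ) (r : ℕ) (p : ℝ) : Prop :=
  ∀ g ∈ D.G, ∀ x : ℤ, (∀ i : ℕ, i < 4 ^ r → (D.F g).w (x + i) ≠ 0) →
    p * 4 ^ r ≤ ∑ i ∈ range (4 ^ r), Fl (D.F g) (fun _ _ => 1) Om r (x + (i : ℕ))

theorem sum_Df_le {S : ℤ} (hS : 1 ≤ S) {Om : ℤ → ℝ} (hO : ∀ X, 0 ≤ Om X) (hO1 : ∀ X, Om X ≤ 1)
    {p : ℝ} (hp0 : 0 ≤ p) (hp1 : p ≤ 1) {r : ℕ} (hL : D.Land Om r p) (m : ℕ) (hm : r ≤ m) (x : ℤ) :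
    ∑ g ∈ D.G, D.Df S Om p g m x ≤ 8 * D.kB * S * 4 ^ m * 4 ^ m := by
  have hS' : (1 : ℝ) ≤ S := by exact_mod_cast hS
  have hk := D.kB0
  induction m, hm using Nat.le_induction generalizing x with
  | base =>
    refine (le_trans ?_ (D.sum_H_le hS r x)).trans ?_
    · refine sum_le_sum fun g hg => ?_
      unfold Df
      split_ifs with h
      · refine max_le (sum_nonneg fun i _ => D.H_nonneg S g r _) ?_
        have h1 := hL g hg x h
        have h2 : ∑ i ∈ range (4 ^ r), Fl (D.F g) (fun _ _ => 1) Om r (x + (i : ℕ)) -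
            ∑ i ∈ range (4 ^ r), D.H S g r (x + (i : ℕ)) ≤
            ∑ i ∈ range (4 ^ r), Fl (D.F g) (chi (D.F g) S) Om r (x + (i : ℕ)) := by
          rw [← sum_sub_distrib]
          exact sum_le_sum fun i _ => D.Pr_sub_H_le hg hO hO1 r _
        linarith
      · exact sum_nonneg fun i _ => D.H_nonneg S g r _
    · have : 0 ≤ D.kB * S * 4 ^ r * 4 ^ r := by positivity
      linarith
  | succ m hm ih =>
    classical
    have h1 : ∀ g ∈ D.G, D.Df S Om p g (m + 1) x ≤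
        (if ¬ Unif (D.F g) x (2 * (S * 4 ^ (m + 1))) then (4 : ℝ) ^ (m + 1) else 0) +
        ∑ r ∈ range 4, ∑ v ∈ D.legs (x + (r : ℕ)), D.Df S Om p g m (T c v (x + (r : ℕ))) := by
      intro g hg
      have h0 : 0 ≤ ∑ r ∈ range 4, ∑ v ∈ D.legs (x + (r : ℕ)),
          D.Df S Om p g m (T c v (x + (r : ℕ))) :=
        sum_nonneg fun r _ => sum_nonneg fun v _ => D.Df_nonneg _ _ _ _ _ _
      by_cases hu : Unif (D.F g) x (2 * (S * 4 ^ (m + 1)))
      · have := D.Df_succ (Om := Om) (p := p) hS hg m x hu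
        simp only [hu, not_true_eq_false, if_false, zero_add]
        exact this
      · simp only [hu, not_false_eq_true, if_true]
        have h2 : D.Df S Om p g (m + 1) x ≤ 4 ^ (m + 1) := by
          unfold Df
          split_ifs
          · refine max_le (by positivity) ?_
            have h3 : 0 ≤ ∑ i ∈ range (4 ^ (m + 1)),
                Fl (D.F g) (chi (D.F g) S) Om (m + 1) (x + (i : ℕ)) :=
              sum_nonneg fun i _ => Fl_nonneg (D.F g) (chi_nonneg (D.F g) S) hO _ _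
            have h4 : p * 4 ^ (m + 1) ≤ 1 * 4 ^ (m + 1) :=
              mul_le_mul_of_nonneg_right hp1 (by positivity)
            linarith
          · positivity
        linarith
    refine (sum_le_sum h1).trans ?_
    rw [sum_add_distrib]
    have h2 : ∑ g ∈ D.G, (if ¬ Unif (D.F g) x (2 * (S * 4 ^ (m + 1))) then (4 : ℝ) ^ (m + 1)
        else 0) ≤ (D.kB * (2 * (S * 4 ^ (m + 1)))) * 4 ^ (m + 1) := by
      rw [← sum_filter, sum_const, nsmul_eq_mul]
      refine mul_le_mul_of_nonneg_right ?_ (by positivity)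
      have := D.bad x (2 * (S * 4 ^ (m + 1)))
        (by have : (1 : ℤ) ≤ 4 ^ (m + 1) := one_le_pow₀ (by norm_num); nlinarith)
        (D.G.filter fun g => ¬ Unif (D.F g) x (2 * (S * 4 ^ (m + 1))))
        (filter_subset _ _) (fun g hg => (mem_filter.1 hg).2)
      push_cast at this
      exact this
    have h4 : ∑ g ∈ D.G, ∑ r ∈ range 4, ∑ v ∈ D.legs (x + (r : ℕ)),
        D.Df S Om p g m (T c v (x + (r : ℕ))) ≤ 12 * (8 * D.kB * S * 4 ^ m * 4 ^ m) := by
      rw [sum_comm]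
      have h5 : ∀ r ∈ range 4, ∑ g ∈ D.G, ∑ v ∈ D.legs (x + (r : ℕ)),
          D.Df S Om p g m (T c v (x + (r : ℕ))) ≤
          ((D.legs (x + (r : ℕ))).card : ℝ) * (8 * D.kB * S * 4 ^ m * 4 ^ m) := by
        intro r _
        rw [sum_comm, ← nsmul_eq_mul, ← sum_const]
        exact sum_le_sum fun v _ => ih _
      refine (sum_le_sum h5).trans ?_
      rw [← sum_mul]
      refine mul_le_mul_of_nonneg_right ?_ (by positivity)
      exact_mod_cast D.count x
    calc _ ≤ (D.kB * (2 * (S * 4 ^ (m + 1)))) * 4 ^ (m + 1) +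
          12 * (8 * D.kB * S * 4 ^ m * 4 ^ m) := add_le_add h2 h4
      _ = 8 * D.kB * S * 4 ^ (m + 1) * 4 ^ (m + 1) := by ring

/-- safe landing on average over the labels -/
theorem safe_land {S : ℤ} (hS : 1 ≤ S) {Om : ℤ → ℝ} (hO : ∀ X, 0 ≤ Om X) (hO1 : ∀ X, Om X ≤ 1)
    {p : ℝ} (hp0 : 0 ≤ p) (hp1 : 2 * p ≤ 1) {r : ℕ} (hL : D.Land Om r (2 * p)) (m : ℕ)
    (hm : r ≤ m) (hN : 8 * D.kB * S * 4 ^ m ≤ p * D.G.card) (x : ℤ)
    (hx : ∀ g ∈ D.G, ∀ i : ℕ, i < 4 ^ m → (D.F g).w (x + i) ≠ 0) :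
    p * D.G.card * 4 ^ m ≤
      ∑ g ∈ D.G, ∑ i ∈ range (4 ^ m), Fl (D.F g) (chi (D.F g) S) Om m (x + (i : ℕ)) := by
  have h1 := D.sum_Df_le hS hO hO1 (by linarith : 0 ≤ 2 * p) hp1 hL m hm x
  have h2 : ∑ g ∈ D.G, (2 * p * 4 ^ m -
      ∑ i ∈ range (4 ^ m), Fl (D.F g) (chi (D.F g) S) Om m (x + (i : ℕ))) ≤
      ∑ g ∈ D.G, D.Df S Om (2 * p) g m x := by
    refine sum_le_sum fun g hg => ?_
    unfold Df
    rw [if_pos (hx g hg)]
    exact le_max_right _ _
  rw [sum_sub_distrib, sum_const, nsmul_eq_mul] at h2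
  have h3 : 8 * D.kB * S * 4 ^ m * 4 ^ m ≤ p * D.G.card * 4 ^ m :=
    mul_le_mul_of_nonneg_right hN (by positivity)
  linarith

end LFam

end H54RP
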