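import Mathlib

/-!
Team RP (MP_a57ff3_nt), helper54. Stationary flows on the carry graph, the comparison inequality.

States are integers `X`; `blk X = (X + 1) / 4`; a letter `v` moves `X` to `T c v X = blk X + c v`.
A flow is a nonnegative stationary weight `W X v` on the arcs `X → T c v X`, with finite support.
-/

namespace H54RP

open Finset

/-- block index -/
def blk (X : ℤ) : ℤ := (X + 1) / 4

theorem blk_add (X h : ℤ) : blk (X + 4 * h) = blk X + h := by
  unfold blk; omega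

theorem blk_eq (Y : ℤ) (r : ℕ) (hr : r < 4) : blk (4 * Y - 1 + r) = Y := by
  unfold blk; omega

theorem exists_res (X : ℤ) : ∃ r : ℕ, r < 4 ∧ X = 4 * blk X - 1 + r := by
  refine ⟨((X + 1) % 4).toNat, ?_, ?_⟩
  · omega
  · unfold blk; omega

variable {ι : Type*} [Fintype ι]

/-- the move with letter `v` -/
def T (c : ι → ℤ) (v : ι) (X : ℤ) : ℤ := blk X + c v

omit [Fintype ι] in
theorem T_add (c : ι → ℤ) (v : ι) (X h : ℤ) : T c v (X + 4 * h) = T c v X + h := by
  unfold T; rw [blk_add]; ring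

/-- stationary flows -/
structure Flow (c : ι → ℤ) where
  W : ℤ → ι → ℝ
  nonneg : ∀ X v, 0 ≤ W X v
  supp : Finset ℤ
  off : ∀ X, X ∉ supp → ∀ v, W X v = 0
  stat : ∀ Y, ∑ v, W Y v = ∑ v, ∑ r ∈ range 4, W (4 * (Y - c v) - 1 + (r : ℕ)) v

namespace Flow

variable {c : ι → ℤ} (F : Flow c)

/-- the mass of a state -/
def w (X : ℤ) : ℝ := ∑ v, F.W X v

/-- transition probabilities -/
noncomputable def K (X : ℤ) (v : ι) : ℝ := F.W X v / F.w X

/-- one-step energy -/
noncomputable def E1 (f : ℤ → ℝ) : ℝ := ∑ X ∈ F.supp, ∑ v, F.W X v * |f (T c v X) - f X|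

theorem w_nonneg (X : ℤ) : 0 ≤ F.w X := sum_nonneg fun v _ => F.nonneg X v

theorem w_off {X : ℤ} (h : X ∉ F.supp) : F.w X = 0 := by
  unfold w
  exact sum_eq_zero fun v _ => F.off X h v

theorem W_le_w (X : ℤ) (v : ι) : F.W X v ≤ F.w X :=
  single_le_sum (f := fun v => F.W X v) (fun v _ => F.nonneg X v) (mem_univ v)

theorem K_nonneg (X : ℤ) (v : ι) : 0 ≤ F.K X v := div_nonneg (F.nonneg X v) (F.w_nonneg X)

theorem w_mul_K (X : ℤ) (v : ι) : F.w X * F.K X v = F.W X v := by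
  unfold K
  by_cases h : F.w X = 0
  · have h1 := F.W_le_w X v
    have h2 := F.nonneg X v
    rw [h] at h1
    rw [h]; simp; linarith
  · field_simp

theorem sum_K_le (X : ℤ) : ∑ v, F.K X v ≤ 1 := by
  unfold K
  rw [← sum_div]
  change F.w X / F.w X ≤ 1
  exact div_self_le_one _

theorem sum_K (X : ℤ) (h : F.w X ≠ 0) : ∑ v, F.K X v = 1 := by
  unfold K
  rw [← sum_div]
  change F.w X / F.w X = 1
  exact div_self h

theorem W_le_w_T (X : ℤ) (v : ι) : F.W X v ≤ F.w (T c v X) := by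
  unfold w
  rw [F.stat]
  obtain ⟨r, hr, hX⟩ := exists_res X
  have e : X = 4 * (T c v X - c v) - 1 + (r : ℕ) := by
    unfold T
    rw [add_sub_cancel_right]
    exact hX
  calc F.W X v = F.W (4 * (T c v X - c v) - 1 + (r : ℕ)) v := by rw [← e]
    _ ≤ ∑ r ∈ range 4, F.W (4 * (T c v X - c v) - 1 + (r : ℕ)) v :=
        single_le_sum (f := fun r : ℕ => F.W (4 * (T c v X - c v) - 1 + (r : ℕ)) v)
          (fun r _ => F.nonneg _ v) (mem_range.2 hr)
    _ ≤ ∑ v', ∑ r ∈ range 4, F.W (4 * (T c v X - c v') - 1 + (r : ℕ)) v' :=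
        single_le_sum (f := fun v' => ∑ r ∈ range 4, F.W (4 * (T c v X - c v') - 1 + (r : ℕ)) v')
          (fun v' _ => sum_nonneg fun r _ => F.nonneg _ v') (mem_univ v)

theorem T_mem_supp {X : ℤ} {v : ι} (h : F.W X v ≠ 0) : T c v X ∈ F.supp := by
  by_contra h1
  have h2 := F.W_le_w_T X v
  rw [F.w_off h1] at h2
  exact h (le_antisymm h2 (F.nonneg X v))

/-- stationarity, integrated form -/
theorem push (g : ℤ → ℝ) :
    ∑ X ∈ F.supp, ∑ v, F.W X v * g (T c v X) = ∑ Y ∈ F.supp, F.w Y * g Y := by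
  have h1 : ∀ Y, F.w Y * g Y = ∑ v, ∑ r ∈ range 4, F.W (4 * (Y - c v) - 1 + (r : ℕ)) v * g Y := by
    intro Y
    unfold w
    rw [F.stat, sum_mul]
    refine sum_congr rfl fun v _ => ?_
    rw [sum_mul]
  rw [sum_congr rfl fun Y _ => h1 Y, sum_comm, sum_comm (s := F.supp) (t := univ)]
  refine sum_congr rfl fun v _ => ?_
  rw [← sum_product' F.supp (range 4)
    (f := fun Y r => F.W (4 * (Y - c v) - 1 + ((r : ℕ) : ℤ)) v * g Y)]
  refine Finset.sum_bij_ne_zero (fun X _ _ => (T c v X, ((X + 1) % 4).toNat)) ?_ ?_ ?_ ?_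
  · intro X hX hne
    rw [mem_product]
    refine ⟨F.T_mem_supp (left_ne_zero_of_mul hne), ?_⟩
    rw [mem_range]
    omega
  · intro X hX hne Y hY hne' e
    simp only [Prod.mk.injEq] at e
    obtain ⟨e1, e2⟩ := e
    unfold T blk at e1
    omega
  · rintro ⟨Y, r⟩ hm hne
    rw [mem_product, mem_range] at hm
    have hW : F.W (4 * (Y - c v) - 1 + (r : ℕ)) v ≠ 0 := left_ne_zero_of_mul hne
    have hs : (4 * (Y - c v) - 1 + (r : ℕ) : ℤ) ∈ F.supp := by
      by_contra h
      exact hW (F.off _ h v)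
    have hT : T c v (4 * (Y - c v) - 1 + (r : ℕ)) = Y := by
      unfold T
      rw [blk_eq _ _ hm.2]
      ring
    refine ⟨_, hs, ?_, ?_⟩
    · rw [hT]; exact hne
    · simp only [Prod.mk.injEq]
      refine ⟨hT, ?_⟩
      have := hm.2
      omega
  · intro X hX hne
    obtain ⟨r, hr, hr'⟩ := exists_res X
    have e2 : ((X + 1) % 4).toNat = r := by
      unfold blk at hr'
      omega
    have e : (4 * (T c v X - c v) - 1 + ((((X + 1) % 4).toNat : ℕ) : ℤ) : ℤ) = X := by
      unfold T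
      rw [add_sub_cancel_right, e2]
      exact hr'.symm
    simp only [e]

theorem E1_nonneg (f : ℤ → ℝ) : 0 ≤ F.E1 f :=
  sum_nonneg fun X _ => sum_nonneg fun v _ => mul_nonneg (F.nonneg X v) (abs_nonneg _)

end Flow

end H54RP
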