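import Pool.Agent.H54.RP.Double

/-!
Team RP (MP_a57ff3_nt), helper54. Iteration of the doubling inequality: the variation at scale `4 ^ L`
is at most `4 ^ L` times a power of `L` times (variation at scale 1 + energy).
-/

namespace H54RP

open Finset

variable {ι : Type*} [Fintype ι] {c : ι → ℤ} {γ : Type*}

theorem Fl_mono (F : Flow c) {χ : ℕ → ℤ → ℝ} {Om Om' : ℤ → ℝ} (hχ : ∀ L X, 0 ≤ χ L X)
    (h : ∀ X, Om X ≤ Om' X) (L : ℕ) (X : ℤ) : Fl F χ Om L X ≤ Fl F χ Om' L X := by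
  induction L generalizing X with
  | zero => exact h X
  | succ L ih =>
    exact mul_le_mul_of_nonneg_left
      (sum_le_sum fun v _ => mul_le_mul_of_nonneg_left (ih _) (F.K_nonneg X v)) (hχ _ _)

theorem LFam.Land.mono {D : LFam c γ} {Om Om' : ℤ → ℝ} {r : ℕ} {p : ℝ} (h : D.Land Om r p)
    (hO : ∀ X, Om X ≤ Om' X) : D.Land Om' r p := by
  intro g hg x hx
  refine (h g hg x hx).trans ?_
  exact sum_le_sum fun i _ => Fl_mono (D.F g) (fun _ _ => zero_le_one) hO r _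

theorem ind_mono {a b a' b' : ℤ} (ha : a' ≤ a) (hb : b ≤ b') (X : ℤ) : ind a b X ≤ ind a' b' X := by
  unfold ind
  by_cases h : X ∈ Icc a b
  · have h' : X ∈ Icc a' b' := by rw [mem_Icc] at h ⊢; omega
    rw [if_pos h, if_pos h']
  · rw [if_neg h]; split_ifs <;> norm_num

theorem vr_le_mul (f : ℤ → ℝ) (a b : ℤ) (d : ℕ) : vr f a b d ≤ d * vr f a b 1 := by
  induction d with
  | zero => simp [vr_zero]
  | succ d ih =>
    have h1 : vr f a b (d + 1) ≤ vr f a b d + vr f a b 1 := by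
      have h2 : vr f a b (d + 1) ≤ ∑ X ∈ Icc a (b - ((d + 1 : ℕ) : ℤ)),
          (|f (X + d) - f X| + |f ((X + d) + (1 : ℕ)) - f (X + d)|) := by
        unfold vr
        refine sum_le_sum fun X _ => ?_
        have e : X + ((d + 1 : ℕ) : ℤ) = (X + d) + (1 : ℕ) := by push_cast; ring
        rw [e]
        have := abs_sub_le (f ((X + d) + (1 : ℕ))) (f (X + d)) (f X)
        linarith
      rw [sum_add_distrib] at h2
      have h3 : ∑ X ∈ Icc a (b - ((d + 1 : ℕ) : ℤ)), |f (X + d) - f X| ≤ vr f a b d := by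
        unfold vr
        refine sum_le_sum_of_subset_of_nonneg (Icc_subset_Icc le_rfl ?_) fun _ _ _ => abs_nonneg _
        push_cast; omega
      have h4 : ∑ X ∈ Icc a (b - ((d + 1 : ℕ) : ℤ)), |f ((X + d) + (1 : ℕ)) - f (X + d)| ≤
          vr f a b 1 := by
        unfold vr
        have e3 : ∑ X ∈ Icc a (b - ((d + 1 : ℕ) : ℤ)), |f ((X + d) + (1 : ℕ)) - f (X + d)| =
            ∑ Z ∈ (Icc a (b - ((d + 1 : ℕ) : ℤ))).map ⟨fun X => X + (d : ℤ), add_left_injective _⟩,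
              |f (Z + (1 : ℕ)) - f Z| := by
          rw [sum_map]; rfl
        rw [e3]
        refine sum_le_sum_of_subset_of_nonneg ?_ fun _ _ _ => abs_nonneg _
        intro Z hZ
        rw [mem_map] at hZ
        obtain ⟨X, hX, rfl⟩ := hZ
        rw [mem_Icc] at hX
        simp only [Function.Embedding.coeFn_mk, mem_Icc]
        push_cast at hX ⊢
        omega
      linarith
    push_cast
    linarith

theorem Ds_le_sq (f : ℤ → ℝ) (a b : ℤ) (n : ℕ) : Ds f a b n ≤ (n : ℝ) * n * vr f a b 1 := by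
  have h0 := vr_nonneg f a b 1
  calc Ds f a b n ≤ ∑ d ∈ Icc 1 n, (n : ℝ) * vr f a b 1 := by
        refine sum_le_sum fun d hd => ?_
        rw [mem_Icc] at hd
        have h1 := vr_le_mul f a b d
        have h2 : (d : ℝ) * vr f a b 1 ≤ n * vr f a b 1 :=
          mul_le_mul_of_nonneg_right (by exact_mod_cast hd.2) h0
        linarith
    _ = (n : ℝ) * n * vr f a b 1 := by
        rw [sum_const, Nat.card_Icc, nsmul_eq_mul, Nat.add_sub_cancel]
        ring

/-- iteration of the doubling inequality -/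
theorem iter (D : LFam c γ) (hG : 0 < D.G.card) (f : ℤ → ℝ) (r : ℕ) (hr : 2 ≤ r) (A B cc : ℤ)
    (p wM E : ℝ) (hp : 0 < p) (hp1 : 2 * p ≤ 1) (hwM : 1 ≤ wM) (hE0 : 0 ≤ E)
    (hE : ∀ g ∈ D.G, (D.F g).E1 f ≤ E) (hw1 : ∀ g ∈ D.G, ∀ X ∈ Icc A B, 1 ≤ (D.F g).w X)
    (hw2 : ∀ g ∈ D.G, ∀ X, (D.F g).w X ≤ wM)
    (hL : D.Land (ind (A + cc) (B - cc)) r (2 * p)) (κ : ℕ) (hκ : 8 * wM ≤ p * (4 / 3 : ℝ) ^ κ)
    (L : ℕ) (hN : 8 * D.kB * 4 ^ L ≤ p * D.G.card) (hc : 2 * 4 ^ L ≤ cc) :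
    Ds f (A + 2 * 4 ^ L) (B - 2 * 4 ^ L) (4 ^ L) ≤
      4 ^ L * (4 ^ (2 * r) * (L + 1) ^ κ * (vr f A B 1 + E)) := by
  have hv0 := vr_nonneg f A B 1
  have hD0E : 0 ≤ vr f A B 1 + E := by linarith
  have hk := D.kB0
  induction L using Nat.strong_induction_on with
  | _ L ih =>
    rcases lt_or_ge L (2 * r) with hlt | hge
    · -- small levels
      have h1 : Ds f (A + 2 * 4 ^ L) (B - 2 * 4 ^ L) (4 ^ L) ≤ Ds f A B (4 ^ L) :=
        Ds_mono f (by have : (0 : ℤ) < 4 ^ L := by positivity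
                      omega) (by have : (0 : ℤ) < 4 ^ L := by positivity
                                 omega) _
      have h2 := Ds_le_sq f A B (4 ^ L)
      push_cast at h2
      have h3 : (4 : ℝ) ^ L ≤ 4 ^ (2 * r) := pow_le_pow_right₀ (by norm_num) hlt.le
      have h4 : (1 : ℝ) ≤ ((L : ℝ) + 1) ^ κ := one_le_pow₀ (by
        have : (0 : ℝ) ≤ L := Nat.cast_nonneg L
        linarith)
      calc Ds f (A + 2 * 4 ^ L) (B - 2 * 4 ^ L) (4 ^ L) ≤ 4 ^ L * 4 ^ L * vr f A B 1 :=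
            h1.trans h2
        _ = 4 ^ L * (4 ^ L * 1 * vr f A B 1) := by ring
        _ ≤ 4 ^ L * (4 ^ (2 * r) * (L + 1) ^ κ * (vr f A B 1 + E)) := by
            refine mul_le_mul_of_nonneg_left ?_ (by positivity)
            refine mul_le_mul ?_ (by linarith) hv0 (by positivity)
            exact mul_le_mul h3 h4 (by norm_num) (by positivity)
    · -- doubling
      set L1 := (L + 1) / 2 with hL1
      set M := L / 2 with hM
      have hLM : L1 + M = L := by omega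
      have hrL1 : r ≤ L1 := by omega
      have hL1lt : L1 < L := by omega
      have hMlt : M < L := by omega
      have hp1' : (4 : ℤ) ^ L1 * 4 ≤ 4 ^ L := by
        rw [← pow_succ]; exact pow_le_pow_right₀ (by norm_num) (by omega)
      have hp2' : (4 : ℤ) ^ M * 4 ≤ 4 ^ L := by
        rw [← pow_succ]; exact pow_le_pow_right₀ (by norm_num) (by omega)
      have hp1R : (4 : ℝ) ^ L1 ≤ 4 ^ L := pow_le_pow_right₀ (by norm_num) hL1lt.le
      have hp2R : (4 : ℝ) ^ M ≤ 4 ^ L := pow_le_pow_right₀ (by norm_num) hMlt.le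
      have q1 : (0 : ℤ) < 4 ^ L1 := by positivity
      have q2 : (0 : ℤ) < 4 ^ M := by positivity
      have q3 : (0 : ℤ) < 4 ^ L := by positivity
      have h1 := ih L1 hL1lt
        ((mul_le_mul_of_nonneg_left hp1R (by positivity)).trans hN) (by omega)
      have h2 := ih M hMlt
        ((mul_le_mul_of_nonneg_left hp2R (by positivity)).trans hN) (by omega)
      have hdb := doubling D hG f L1 M r hrL1 (A + 2 * 4 ^ L) (B - 2 * 4 ^ L)
        (A + 2 * 4 ^ L1) (B - 2 * 4 ^ L1) (A + 2 * 4 ^ M) (B - 2 * 4 ^ M)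
        (by omega) (by omega) (by omega) (by omega) p wM E hp hp1 hE
        (fun g hg X hX => hw1 g hg X (by rw [mem_Icc] at hX ⊢; omega)) hw2
        (hL.mono fun X => ind_mono (by omega) (by omega) X) (by rw [hLM]; exact hN)
      rw [hLM] at hdb
      -- numerical part
      set y : ℝ := vr f A B 1 + E with hy
      have hLr : (L : ℝ) = L1 + M := by rw [← hLM]; push_cast; ring
      have hL4 : (4 : ℝ) ≤ L := by exact_mod_cast (by omega : 4 ≤ L)
      have hL1' : (L1 : ℝ) + 1 ≤ 3 / 4 * (L + 1) := by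
        have : (2 : ℝ) * L1 ≤ L + 1 := by exact_mod_cast (by omega : 2 * L1 ≤ L + 1)
        linarith
      have hM' : (M : ℝ) + 1 ≤ 3 / 4 * (L + 1) := by
        have : (2 : ℝ) * M ≤ L := by exact_mod_cast (by omega : 2 * M ≤ L)
        linarith
      have hpw1 : ((L1 : ℝ) + 1) ^ κ ≤ (3 / 4) ^ κ * (L + 1) ^ κ := by
        rw [← mul_pow]; exact pow_le_pow_left₀ (by positivity) hL1' κ
      have hpw2 : ((M : ℝ) + 1) ^ κ ≤ (3 / 4) ^ κ * (L + 1) ^ κ := by
        rw [← mul_pow]; exact pow_le_pow_left₀ (by positivity) hM' κ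
      have hκ' : 8 * wM * (3 / 4 : ℝ) ^ κ ≤ p := by
        have e : (4 / 3 : ℝ) ^ κ * (3 / 4) ^ κ = 1 := by rw [← mul_pow]; norm_num
        calc 8 * wM * (3 / 4 : ℝ) ^ κ ≤ p * (4 / 3 : ℝ) ^ κ * (3 / 4) ^ κ :=
              mul_le_mul_of_nonneg_right hκ (by positivity)
          _ = p := by rw [mul_assoc, e, mul_one]
      have hκ1 : 1 ≤ κ := by
        by_contra h0
        have : κ = 0 := by omega
        rw [this] at hκ'
        norm_num at hκ'
        linarith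
      -- `4 * L1 ≤ p * 4 ^ (2 r) (L + 1) ^ κ`
      set Z : ℝ := 4 ^ (2 * r) * (L + 1) ^ κ with hZ
      have hZ0 : 0 ≤ Z := by positivity
      have hbig : 4 * (L1 : ℝ) ≤ p * Z := by
        have e0 : (L1 : ℝ) ≤ L + 1 := by
          have : (L1 : ℝ) ≤ L := by exact_mod_cast hL1lt.le
          linarith
        have e1 : (3 / 4 : ℝ) ^ κ * (L + 1) ^ κ = (3 / 4 * (L + 1)) ^ κ := (mul_pow _ _ _).symm
        have e2 : (3 / 4 * ((L : ℝ) + 1)) ≤ (3 / 4 * ((L : ℝ) + 1)) ^ κ :=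
          le_self_pow₀ (by linarith) (by omega)
        have e3 : 8 * wM * ((3 / 4 : ℝ) ^ κ * (L + 1) ^ κ) ≤ p * (L + 1) ^ κ := by
          rw [← mul_assoc]; exact mul_le_mul_of_nonneg_right hκ' (by positivity)
        have e4 : (1 : ℝ) ≤ 4 ^ (2 * r) := one_le_pow₀ (by norm_num)
        have e5 : p * ((L : ℝ) + 1) ^ κ ≤ p * Z := by
          rw [hZ]
          refine mul_le_mul_of_nonneg_left ?_ hp.le
          exact le_mul_of_one_le_left (by positivity) e4
        rw [e1] at e3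
        nlinarith
      have b1 : Ds f (A + 2 * 4 ^ L1) (B - 2 * 4 ^ L1) (4 ^ L1) ≤
          4 ^ L1 * ((3 / 4) ^ κ * Z * y) := by
        refine h1.trans (mul_le_mul_of_nonneg_left ?_ (by positivity))
        refine mul_le_mul_of_nonneg_right ?_ hD0E
        rw [hZ]
        calc (4 : ℝ) ^ (2 * r) * ((L1 : ℝ) + 1) ^ κ ≤ 4 ^ (2 * r) * ((3 / 4) ^ κ * (L + 1) ^ κ) :=
              mul_le_mul_of_nonneg_left hpw1 (by positivity)
          _ = _ := by ring
      have b2 : Ds f (A + 2 * 4 ^ M) (B - 2 * 4 ^ M) (4 ^ M) ≤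
          4 ^ M * ((3 / 4) ^ κ * Z * y) := by
        refine h2.trans (mul_le_mul_of_nonneg_left ?_ (by positivity))
        refine mul_le_mul_of_nonneg_right ?_ hD0E
        rw [hZ]
        calc (4 : ℝ) ^ (2 * r) * ((M : ℝ) + 1) ^ κ ≤ 4 ^ (2 * r) * ((3 / 4) ^ κ * (L + 1) ^ κ) :=
              mul_le_mul_of_nonneg_left hpw2 (by positivity)
          _ = _ := by ring
      have hpow : (4 : ℝ) ^ L1 * 4 ^ M = 4 ^ L := by rw [← pow_add, hLM]
      have hwM0 : 0 ≤ wM := by linarith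
      have c1 : 3 * wM * 4 ^ M * Ds f (A + 2 * 4 ^ L1) (B - 2 * 4 ^ L1) (4 ^ L1) ≤
          3 * wM * 4 ^ L * ((3 / 4) ^ κ * Z * y) := by
        calc _ ≤ 3 * wM * 4 ^ M * (4 ^ L1 * ((3 / 4) ^ κ * Z * y)) :=
              mul_le_mul_of_nonneg_left b1 (by positivity)
          _ = 3 * wM * (4 ^ L1 * 4 ^ M) * ((3 / 4) ^ κ * Z * y) := by ring
          _ = _ := by rw [hpow]
      have c2 : wM * 4 ^ L1 * Ds f (A + 2 * 4 ^ M) (B - 2 * 4 ^ M) (4 ^ M) ≤
          wM * 4 ^ L * ((3 / 4) ^ κ * Z * y) := by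
        calc _ ≤ wM * 4 ^ L1 * (4 ^ M * ((3 / 4) ^ κ * Z * y)) :=
              mul_le_mul_of_nonneg_left b2 (by positivity)
          _ = wM * (4 ^ L1 * 4 ^ M) * ((3 / 4) ^ κ * Z * y) := by ring
          _ = _ := by rw [hpow]
      have hEy : E ≤ y := by rw [hy]; linarith
      have c3 : 2 * 4 ^ L * (L1 : ℝ) * E ≤ 4 ^ L * (p * Z / 2 * y) := by
        have d1 : 2 * (L1 : ℝ) * E ≤ p * Z / 2 * y := by
          have d2 : 2 * (L1 : ℝ) ≤ p * Z / 2 := by linarith
          exact mul_le_mul d2 hEy hE0 (by positivity)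
        calc 2 * 4 ^ L * (L1 : ℝ) * E = 4 ^ L * (2 * (L1 : ℝ) * E) := by ring
          _ ≤ _ := mul_le_mul_of_nonneg_left d1 (by positivity)
      have c4 : 4 * wM * ((3 / 4 : ℝ) ^ κ * Z * y) ≤ p * Z / 2 * y := by
        have d1 : 4 * wM * (3 / 4 : ℝ) ^ κ ≤ p / 2 := by linarith
        calc 4 * wM * ((3 / 4 : ℝ) ^ κ * Z * y) = (4 * wM * (3 / 4 : ℝ) ^ κ) * (Z * y) := by ring
          _ ≤ p / 2 * (Z * y) := mul_le_mul_of_nonneg_right d1 (mul_nonneg hZ0 hD0E)
          _ = _ := by ring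
      have hfin : p * Ds f (A + 2 * 4 ^ L) (B - 2 * 4 ^ L) (4 ^ L) ≤ p * (4 ^ L * (Z * y)) := by
        have d5 := mul_le_mul_of_nonneg_left c4 (show (0 : ℝ) ≤ 4 ^ L by positivity)
        nlinarith
      exact le_of_mul_le_mul_left hfin hp

end H54RP
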