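import Mathlib

/-!
Team RP (MP_a57ff3_nt), helper54. Step functions of the block index with thresholds moving with the
label: the number of labels with a threshold in a given interval.
-/

set_option autoImplicit false

namespace H54RP

open Finset

/-- `φ g` is constant on `[u, v]` -/
def Cst {α : Type*} (φ : ℤ → ℤ → α) (g u v : ℤ) : Prop := ∀ i, u ≤ i → i ≤ v → φ g i = φ g u

/-- at most `k (v - u)` labels `g` with `φ g` not constant on `[u, v]` -/
def Thr {α : Type*} (φ : ℤ → ℤ → α) (k : ℕ) : Prop :=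
  ∀ u v : ℤ, u ≤ v → ∀ B : Finset ℤ, (∀ g ∈ B, ¬ Cst φ g u v) → (B.card : ℤ) ≤ k * (v - u)

namespace Thr

variable {α β δ : Type*}

theorem mono {φ : ℤ → ℤ → α} {k l : ℕ} (h : Thr φ k) (hkl : k ≤ l) : Thr φ l := by
  intro u v huv B hB
  have h1 := h u v huv B hB
  have h2 : (k : ℤ) ≤ l := by exact_mod_cast hkl
  have h3 : (k : ℤ) * (v - u) ≤ l * (v - u) := mul_le_mul_of_nonneg_right h2 (by omega)
  omega

theorem map2 {φ : ℤ → ℤ → α} {ψ : ℤ → ℤ → β} {k l : ℕ} (op : α → β → δ) (h1 : Thr φ k)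
    (h2 : Thr ψ l) : Thr (fun g j => op (φ g j) (ψ g j)) (k + l) := by
  classical
  intro u v huv B hB
  have e1 := h1 u v huv (B.filter fun g => ¬ Cst φ g u v) fun g hg => (mem_filter.1 hg).2
  have e2 := h2 u v huv (B.filter fun g => ¬ Cst ψ g u v) fun g hg => (mem_filter.1 hg).2
  have e3 : B ⊆ (B.filter fun g => ¬ Cst φ g u v) ∪ (B.filter fun g => ¬ Cst ψ g u v) := by
    intro g hg
    rw [mem_union, mem_filter, mem_filter]
    by_contra hc
    push Not at hc
    have c1 := hc.1 hg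
    have c2 := hc.2 hg
    apply hB g hg
    intro i hi1 hi2
    have d1 := c1 i hi1 hi2
    have d2 := c2 i hi1 hi2
    simp only
    rw [d1, d2]
  have e4 := (card_le_card e3).trans (card_union_le _ _)
  push_cast
  have e5 : (B.card : ℤ) ≤ (B.filter fun g => ¬ Cst φ g u v).card +
      (B.filter fun g => ¬ Cst ψ g u v).card := by exact_mod_cast e4
  have e6 : ((k : ℤ) + l) * (v - u) = k * (v - u) + l * (v - u) := by ring
  rw [e6]
  omega

theorem add {φ ψ : ℤ → ℤ → ℤ} {k l : ℕ} (h1 : Thr φ k) (h2 : Thr ψ l) :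
    Thr (fun g j => φ g j + ψ g j) (k + l) := map2 (· + ·) h1 h2

theorem sub {φ ψ : ℤ → ℤ → ℤ} {k l : ℕ} (h1 : Thr φ k) (h2 : Thr ψ l) :
    Thr (fun g j => φ g j - ψ g j) (k + l) := map2 (· - ·) h1 h2

theorem pair {φ : ℤ → ℤ → α} {ψ : ℤ → ℤ → β} {k l : ℕ} (h1 : Thr φ k) (h2 : Thr ψ l) :
    Thr (fun g j => (φ g j, ψ g j)) (k + l) := map2 Prod.mk h1 h2

theorem smul {φ : ℤ → ℤ → ℤ} {k : ℕ} (c : ℤ) (h : Thr φ k) :
    Thr (fun g j => c * φ g j) k := by
  intro u v huv B hB
  refine h u v huv B fun g hg hc => hB g hg fun i hi1 hi2 => ?_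
  simp only
  rw [hc i hi1 hi2]

theorem neg {φ : ℤ → ℤ → ℤ} {k : ℕ} (h : Thr φ k) : Thr (fun g j => -φ g j) k := by
  intro u v huv B hB
  refine h u v huv B fun g hg hc => hB g hg fun i hi1 hi2 => ?_
  simp only
  rw [hc i hi1 hi2]

theorem shift {φ : ℤ → ℤ → α} {k : ℕ} (h : Thr φ k) (c : ℤ) :
    Thr (fun g j => φ g (j + c)) k := by
  intro u v huv B hB
  have h1 := h (u + c) (v + c) (by omega) B fun g hg hc => hB g hg fun i hi1 hi2 =>
    hc (i + c) (by omega) (by omega)
  have : v + c - (u + c) = v - u := by ring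
  rwa [this] at h1

/-- the basic step functions -/
theorem st_aux (e : ℤ → ℤ → ℤ) (s : ℤ) (hs : s ≠ 0) (h : ∀ g j, e g j = j + e 0 0 + s * g) :
    Thr (fun g j => if 0 ≤ e g j then (1 : ℤ) else 0) 1 := by
  intro u v huv B hB
  obtain ⟨a, ha⟩ : ∃ a, a = e 0 0 := ⟨_, rfl⟩
  rw [← ha] at h
  have h1 : ∀ g ∈ B, s * g ∈ Ico (-v - a) (-u - a) := by
    intro g hg
    by_contra hc
    apply hB g hg
    intro i hi1 hi2
    simp only
    rw [h g i, h g u]
    rw [mem_Ico] at hc
    have : (0 ≤ i + a + s * g) ↔ (0 ≤ u + a + s * g) := by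
      constructor
      · intro h3
        by_contra h4
        apply hc
        constructor <;> omega
      · intro h3; omega
    simp only [this]
  have h2 : (B.image fun g => s * g) ⊆ Ico (-v - a) (-u - a) := by
    intro y hy
    rw [mem_image] at hy
    obtain ⟨g, hg, rfl⟩ := hy
    exact h1 g hg
  have h3 := card_le_card h2
  rw [card_image_of_injective _ (fun x y hxy => mul_left_cancel₀ hs hxy), Int.card_Ico] at h3
  push_cast
  omega

end Thr

end H54RP
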