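import Pool.Agent.H98.RP2.Flow
import Pool.Agent.H54.RP.Avg
import Pool.Agent.H54.RP.Thr

/-!
Team RP (MP_a57ff3_nt), helper54. The labelled family of flows of the chains A and B: legal letters
and the number of labels with a threshold in an interval.
-/

set_option autoImplicit false

namespace H54RP

open Finset Pool.Agent.H98.RP2

/-- the flow `0` -/
def Flow.zero {ι : Type*} [Fintype ι] (c : ι → ℤ) : Flow c where
  W := fun _ _ => 0
  nonneg := fun _ _ => le_rfl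
  supp := ∅
  off := fun _ _ _ => rfl
  stat := fun Y => by simp

/-- the letters allowed at a state of type `τ` -/
def LgT (τ : ℤ) (v : Lt) : Prop :=
  (bb v = 1 ∧ (τ = -1 ∨ τ = 0)) ∨ (bb v = 0 ∧ (τ = 0 ∨ τ = 1)) ∨ (bb v = -1 ∧ (τ = 1 ∨ τ = 2))

instance (τ : ℤ) : DecidablePred (LgT τ) := fun v => by unfold LgT; infer_instance

/-- the letters allowed at a state -/
def lgs (σ : Bool) (X : ℤ) : Finset Lt := univ.filter (LgT (ty σ X))

theorem lgs_card (σ : Bool) (X : ℤ) :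
    (lgs σ X).card = if ty σ X = 0 ∨ ty σ X = 1 then 4 else 2 := by
  unfold lgs
  rcases Chn.ty_range σ X with h | h | h | h <;> rw [h] <;> decide

theorem ty_eq (σ : Bool) (X : ℤ) :
    ty σ X = if σ then (X + 1) % 4 - 1 else 2 - (X + 1) % 4 := by
  unfold ty blk
  cases σ
  · simp only [Bool.false_eq_true, if_false]; omega
  · simp only [if_true]; omega

theorem ty_congr (σ : Bool) {X Y : ℤ} (h : (4 : ℤ) ∣ Y - X) : ty σ X = ty σ Y := by
  rw [ty_eq, ty_eq]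
  have : (X + 1) % 4 = (Y + 1) % 4 := by omega
  rw [this]

theorem lgs_count (σ : Bool) (X : ℤ) : ∑ r ∈ range 4, (lgs σ (X + (r : ℕ))).card ≤ 12 := by
  rw [sum_range_succ, sum_range_succ, sum_range_succ, sum_range_one]
  simp only [lgs_card, ty_eq]
  cases σ
  · simp only [Bool.false_eq_true, if_false]
    push_cast
    have h0 : (X + 1) % 4 = 0 ∨ (X + 1) % 4 = 1 ∨ (X + 1) % 4 = 2 ∨ (X + 1) % 4 = 3 := by omega
    split_ifs <;> omega
  · simp only [if_true]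
    push_cast
    have h0 : (X + 1) % 4 = 0 ∨ (X + 1) % 4 = 1 ∨ (X + 1) % 4 = 2 ∨ (X + 1) % 4 = 3 := by omega
    split_ifs <;> omega

/-- a family of chains with common `N`, `M`, `D`; the label is `g` -/
structure Fam where
  N : ℤ
  M : ℤ
  D : ℤ
  np : ℤ → ℤ → ℤ
  nm : ℤ → ℤ → ℤ
  th : ℤ → ℤ → ℤ

namespace Fam

variable (Φ : Fam)

def par (g : ℤ) : Par := ⟨Φ.N, Φ.M, Φ.D, g⟩

def ch (g : ℤ) : Chn := ⟨Φ.par g, Φ.np g, Φ.nm g, Φ.th g⟩

/-- `Q` -/
def q : ℤ := 2 * Φ.N + Φ.D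

/-- the label is valid -/
def Ok (g : ℤ) : Prop := (Φ.ch g).Ex ∧ Chn.Wok (Φ.ch g).P

/-- the flow with the valid label `g` -/
noncomputable def flOk (σ : Bool) (g : ℤ) (h : Φ.Ok g) : Flow (cL Φ.q Φ.N) where
  W := (Φ.ch g).W σ
  nonneg := (Chn.flow (Φ.ch g) h.1 h.2 σ).nonneg
  supp := Chn.sup (Φ.par g)
  off := (Chn.flow (Φ.ch g) h.1 h.2 σ).off
  stat := (Chn.flow (Φ.ch g) h.1 h.2 σ).stat

open Classical in
/-- the flow with label `g` -/
noncomputable def fl (σ : Bool) (g : ℤ) : Flow (cL Φ.q Φ.N) :=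
  if h : Φ.Ok g then Φ.flOk σ g h else Flow.zero _

theorem fl_W (σ : Bool) {g : ℤ} (h : Φ.Ok g) (X : ℤ) (v : Lt) :
    (Φ.fl σ g).W X v = (Φ.ch g).W σ X v := by
  unfold fl
  rw [dif_pos h]
  rfl

theorem fl_supp (σ : Bool) {g : ℤ} (h : Φ.Ok g) : (Φ.fl σ g).supp = Chn.sup (Φ.par g) := by
  unfold fl
  rw [dif_pos h]
  rfl

theorem fl_w (σ : Bool) {g : ℤ} (h : Φ.Ok g) (X : ℤ) :
    (Φ.fl σ g).w X = ((Φ.par g).w (blk X) : ℤ) := by
  have h1 := Chn.flow_w (Φ.ch g) h.1 h.2 σ X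
  unfold fl
  rw [dif_pos h]
  exact h1

theorem fl_leg (σ : Bool) (g : ℤ) (X : ℤ) (v : Lt) (hW : (Φ.fl σ g).W X v ≠ 0) :
    LgT (ty σ X) v := by
  by_cases h : Φ.Ok g
  · rw [Φ.fl_W σ h] at hW
    unfold Chn.W at hW
    have hm : ((Φ.ch g).mass σ (bb v) X : ℝ) ≠ 0 := by
      intro h0
      apply hW
      rw [h0]
      simp
    have hm' : (Φ.ch g).mass σ (bb v) X ≠ 0 := by exact_mod_cast hm
    unfold Chn.mass at hm'
    unfold LgT
    rcases bb_cases v with hb | hb | hb <;> rw [hb] at hm' ⊢ <;> norm_num at hm' ⊢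
    · by_contra hc
      push Not at hc
      simp [hc.1, hc.2] at hm'
    · by_contra hc
      push Not at hc
      simp [hc.1, hc.2] at hm'
    · by_contra hc
      push Not at hc
      simp [hc.1, hc.2] at hm'
  · exfalso
    apply hW
    unfold fl
    rw [dif_neg h]
    rfl

/-- all data which enter `W` at a state of block `j` -/
def tup (g j : ℤ) : (ℤ × ℤ × ℤ) × (ℤ × ℤ × ℤ) × (ℤ × ℤ × ℤ) × (ℤ × ℤ × ℤ) :=
  (((Φ.par g).w j, Φ.np g j, Φ.nm g j),
    ((Φ.par g).D0 (Φ.th g) (j + -Φ.q), (Φ.par g).D1 (Φ.th g) (j + -Φ.q),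
      (Φ.par g).r (Φ.np g) (Φ.nm g) (j + -Φ.q)),
    ((Φ.par g).D0 (Φ.th g) (j + 0), (Φ.par g).D1 (Φ.th g) (j + 0),
      (Φ.par g).r (Φ.np g) (Φ.nm g) (j + 0)),
    ((Φ.par g).D0 (Φ.th g) (j + Φ.q), (Φ.par g).D1 (Φ.th g) (j + Φ.q),
      (Φ.par g).r (Φ.np g) (Φ.nm g) (j + Φ.q)))

theorem W_congr (σ : Bool) (g : ℤ) {X Y : ℤ} (hd : (4 : ℤ) ∣ Y - X)
    (h : Φ.tup g (blk X) = Φ.tup g (blk Y)) (v : Lt) :
    (Φ.ch g).W σ X v = (Φ.ch g).W σ Y v := by
  unfold tup at h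
  simp only [Prod.mk.injEq] at h
  obtain ⟨⟨a1, a2, a3⟩, ⟨b1, b2, b3⟩, ⟨c1, c2, c3⟩, d1, d2, d3⟩ := h
  have hty := ty_congr σ hd
  have hq : (Φ.ch g).P.Q = Φ.q := rfl
  have hm : (Φ.ch g).mass σ (bb v) X = (Φ.ch g).mass σ (bb v) Y := by
    unfold Chn.mass
    have e1 : (Φ.ch g).P.w (blk X) = (Φ.ch g).P.w (blk Y) := a1
    have e2 : (Φ.ch g).np (blk X) = (Φ.ch g).np (blk Y) := a2
    have e3 : (Φ.ch g).nm (blk X) = (Φ.ch g).nm (blk Y) := a3
    rw [hty, e1, e2, e3]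
  have hD : (Φ.ch g).Dd (dd v) (blk X + (Φ.ch g).P.Q * bb v) =
      (Φ.ch g).Dd (dd v) (blk Y + (Φ.ch g).P.Q * bb v) ∧
      (Φ.ch g).P.r (Φ.ch g).np (Φ.ch g).nm (blk X + (Φ.ch g).P.Q * bb v) =
      (Φ.ch g).P.r (Φ.ch g).np (Φ.ch g).nm (blk Y + (Φ.ch g).P.Q * bb v) := by
    rw [hq]
    unfold Chn.Dd
    rcases bb_cases v with hb | hb | hb
    · rw [hb, show Φ.q * -1 = -Φ.q by ring]
      refine ⟨?_, b3⟩
      split_ifs
      · exact b2
      · exact b1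
    · rw [hb, mul_zero]
      refine ⟨?_, c3⟩
      split_ifs
      · exact c2
      · exact c1
    · rw [hb, mul_one]
      refine ⟨?_, d3⟩
      split_ifs
      · exact d2
      · exact d1
  unfold Chn.W
  rw [hm, hD.1, hD.2]

theorem unif_of_cst (σ : Bool) (g x R : ℤ) (h : Cst Φ.tup g (blk x) (blk (x + R))) :
    Unif (Φ.fl σ g) x R := by
  intro X Y hX1 hX2 hY1 hY2 hd v
  by_cases hok : Φ.Ok g
  · rw [Φ.fl_W σ hok, Φ.fl_W σ hok]
    apply Φ.W_congr σ g hd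
    rw [h (blk X) (by unfold blk; omega) (by unfold blk; omega),
      h (blk Y) (by unfold blk; omega) (by unfold blk; omega)]
  · unfold fl
    rw [dif_neg hok]
    rfl

end Fam

/-- thresholds of a family -/
structure Fam.HT (Φ : Fam) (k : ℕ) : Prop where
  np : Thr Φ.np k
  nm : Thr Φ.nm k
  th : Thr Φ.th k

namespace Fam

variable {Φ : Fam} {k : ℕ}

theorem thr_st1 {a : ℤ → ℤ} {s c : ℤ} (hs : s ≠ 0) (h : ∀ g, a g = c + s * g) :
    Thr (fun g j => st (j - a g)) 1 := by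
  have := Thr.st_aux (fun g j => j - a g) (-s) (by omega) (fun g j => by
    rw [h g, h 0]; ring)
  exact this

theorem thr_w (Φ : Fam) : Thr (fun g j => (Φ.par g).w j) 4 := by
  unfold Par.w iv
  refine Thr.add (k := 2) (l := 2) (Thr.sub (k := 1) (l := 1) ?_ ?_)
    (Thr.sub (k := 1) (l := 1) ?_ ?_)
  · exact thr_st1 (s := 1) (c := -2 * Φ.M) (by norm_num) (fun g => by unfold par; ring)
  · exact thr_st1 (s := 1) (c := -2 * Φ.M + Φ.N) (by norm_num) (fun g => by unfold par; ring)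
  · exact thr_st1 (s := -1) (c := 0) (by norm_num) (fun g => by unfold par; ring)
  · exact thr_st1 (s := -1) (c := Φ.N) (by norm_num) (fun g => by unfold par; ring)

theorem thr_G (Φ : Fam) : Thr (fun g j => (Φ.par g).G j) 2 := by
  unfold Par.G
  refine Thr.add (k := 1) (l := 1) ?_ ?_
  · exact thr_st1 (s := 1) (c := -2 * Φ.M) (by norm_num) (fun g => by unfold par; ring)
  · exact thr_st1 (s := -1) (c := 0) (by norm_num) (fun g => by unfold par; ring)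

theorem thr_ZG (Φ : Fam) : Thr (fun g j => (Φ.par g).ZG j) 8 := by
  unfold Par.ZG
  have h1 : ∀ c : ℤ, Thr (fun g j => st (j + 1 - 4 * (-2 * (Φ.par g).M + (Φ.par g).g) - c)) 1 := by
    intro c
    have := Thr.st_aux (fun g j => j + 1 - 4 * (-2 * (Φ.par g).M + (Φ.par g).g) - c) (-4)
      (by norm_num) (fun g j => by simp only [par]; ring)
    exact this
  have h2 : ∀ c : ℤ, Thr (fun g j => st (j + 1 - 4 * (-(Φ.par g).g) - c)) 1 := by
    intro c
    have := Thr.st_aux (fun g j => j + 1 - 4 * (-(Φ.par g).g) - c) 4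
      (by norm_num) (fun g j => by simp only [par]; ring)
    exact this
  refine Thr.add (k := 6) (l := 2) (Thr.add (k := 4) (l := 2) (Thr.add (k := 2) (l := 2)
    (Thr.add (k := 1) (l := 1) ?_ ?_) (Thr.add (k := 1) (l := 1) ?_ ?_))
    (Thr.add (k := 1) (l := 1) ?_ ?_)) (Thr.add (k := 1) (l := 1) ?_ ?_)
  · simpa using h1 0
  · simpa using h2 0
  · exact h1 Φ.N
  · exact h2 Φ.N
  · exact h1 (2 * Φ.N)
  · exact h2 (2 * Φ.N)
  · exact h1 (3 * Φ.N)
  · exact h2 (3 * Φ.N)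

theorem thr_R (h : Φ.HT k) : Thr (fun g j => (Φ.par g).R (Φ.th g) j) (6 + k) := by
  unfold Par.R
  refine Thr.add (k := 6) (l := k) (Thr.add (k := 4) (l := 2) (Thr.add (k := 2) (l := 2)
    (Thr.smul 4 ?_) (Thr.smul 2 ?_)) (Thr.smul 2 ?_)) h.th
  · exact thr_G Φ
  · exact (thr_G Φ).shift (-Φ.q)
  · exact (thr_G Φ).shift Φ.q

theorem thr_D1 (h : Φ.HT k) : Thr (fun g j => (Φ.par g).D1 (Φ.th g) j) (14 + k) := by
  unfold Par.D1
  exact (Thr.sub (thr_R h) (Thr.smul 2 (thr_ZG Φ))).mono (by omega)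

theorem thr_D0 (h : Φ.HT k) : Thr (fun g j => (Φ.par g).D0 (Φ.th g) j) (14 + k) := by
  unfold Par.D0
  refine Thr.mono (k := 8 + (6 + k)) (Thr.sub (Thr.smul 2 (thr_ZG Φ)) ?_) (by omega)
  exact (thr_R h).shift (-Φ.N)

theorem thr_r (h : Φ.HT k) :
    Thr (fun g j => (Φ.par g).r (Φ.np g) (Φ.nm g) j) (12 + 4 * k) := by
  unfold Par.r
  have w1 := (thr_w Φ).shift (-Φ.q)
  have w2 := (thr_w Φ).shift Φ.q
  have n1 := h.np.shift (-Φ.q)
  have n2 := h.nm.shift Φ.q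
  have := ((((((thr_w Φ).smul 4).sub h.np).sub h.nm).add (w1.smul 2)).add n1).add (w2.smul 2) |>.add n2
  exact this.mono (by omega)

theorem thr_tup (h : Φ.HT k) : Thr Φ.tup (124 + 20 * k) := by
  have d0 := thr_D0 h
  have d1 := thr_D1 h
  have r := thr_r h
  have e : ∀ c : ℤ, Thr (fun g j => ((Φ.par g).D0 (Φ.th g) (j + c), (Φ.par g).D1 (Φ.th g) (j + c),
      (Φ.par g).r (Φ.np g) (Φ.nm g) (j + c))) (40 + 6 * k) := fun c =>
    (Thr.pair (d0.shift c) (Thr.pair (d1.shift c) (r.shift c))).mono (by omega)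
  have a := Thr.pair (thr_w Φ) (Thr.pair h.np h.nm)
  exact (Thr.pair a (Thr.pair (e (-Φ.q)) (Thr.pair (e 0) (e Φ.q)))).mono (by omega)

/-- the labelled family -/
noncomputable def lf (Φ : Fam) (σ : Bool) (G : Finset ℤ) (k : ℕ) (h : Φ.HT k) :
    LFam (cL Φ.q Φ.N) ℤ where
  G := G
  F := Φ.fl σ
  leg := fun X v => LgT (ty σ X) v
  leg_add := fun X v => by
    rw [ty_congr σ (X := X + 4) (Y := X) (by omega)]
  hW := fun g _ X v hW => Φ.fl_leg σ g X v hW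
  legs := lgs σ
  legs_mem := fun X v => by unfold lgs; rw [mem_filter]; simp
  count := lgs_count σ
  kB := 124 + 20 * k
  kB0 := by positivity
  bad := by
    intro x R hR B _ hb
    have h1 := thr_tup h (blk x) (blk (x + R)) (by unfold blk; omega) B fun g hg hc =>
      hb g hg (Φ.unif_of_cst σ g x R hc)
    have h2 : blk (x + R) - blk x ≤ R := by unfold blk; omega
    have h3 : (B.card : ℤ) ≤ (124 + 20 * k : ℕ) * R :=
      h1.trans (mul_le_mul_of_nonneg_left h2 (by positivity))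
    have h4 : ((B.card : ℤ) : ℝ) ≤ (((124 + 20 * k : ℕ) * R : ℤ) : ℝ) := by exact_mod_cast h3
    push_cast at h4
    exact h4

end Fam

end H54RP
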