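import Pool.Agent.H54.RP.Label
import Pool.Agent.H98.RP2.ExA
import Pool.Agent.H98.RP2.ExB

/-!
Team RP (MP_a57ff3_nt), helper54. The families of the cases A and B.
-/

set_option autoImplicit false

namespace H54RP

open Finset Pool.Agent.H98.RP2

theorem thr_iv {a b : ℤ → ℤ} (s s' : ℤ) (hs : s ≠ 0) (hs' : s' ≠ 0)
    (ha : ∀ g, a g = a 0 + s * g) (hb : ∀ g, b g = b 0 + s' * g) :
    Thr (fun g j => iv (a g) (b g) j) 2 := by
  unfold iv
  exact Thr.sub (k := 1) (l := 1) (Fam.thr_st1 hs ha) (Fam.thr_st1 hs' hb)

/-- case A -/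
def famA (N M D : ℤ) : Fam where
  N := N
  M := M
  D := D
  np := fun g => (Par.mk N M D g).npA
  nm := fun g => (Par.mk N M D g).nmA
  th := fun g => (Par.mk N M D g).thA

/-- case B -/
def famB (N M D : ℤ) : Fam where
  N := N
  M := M
  D := D
  np := fun g => (Par.mk N M D g).npB
  nm := fun g => (Par.mk N M D g).nmB
  th := fun g => (Par.mk N M D g).thB

theorem famA_ch (N M D g : ℤ) : (famA N M D).ch g = chA ⟨N, M, D, g⟩ := rfl
theorem famB_ch (N M D g : ℤ) : (famB N M D).ch g = chB ⟨N, M, D, g⟩ := rfl
theorem famA_par (N M D g : ℤ) : (famA N M D).par g = ⟨N, M, D, g⟩ := rfl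
theorem famB_par (N M D g : ℤ) : (famB N M D).par g = ⟨N, M, D, g⟩ := rfl

theorem okA {N M D g : ℤ} (h : HA ⟨N, M, D, g⟩) : (famA N M D).Ok g := by
  refine ⟨exA h, ?_⟩
  obtain ⟨hN, hM, g0, gD, gN, D1, D2⟩ := h
  simp only at *
  exact ⟨g0, by change 2 * g ≤ M; omega, hN⟩

theorem okB {N M D g : ℤ} (h : HB ⟨N, M, D, g⟩) : (famB N M D).Ok g := by
  refine ⟨exB h, ?_⟩
  obtain ⟨hN, hM, g1, g2, D1, D2⟩ := h
  simp only at *
  exact ⟨by change 0 ≤ g; omega, by change 2 * g ≤ M; omega, hN⟩

theorem htA (N M D : ℤ) : (famA N M D).HT 12 := by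
  refine ⟨?_, ?_, ?_⟩
  · have h : Thr (fun g j => (Par.mk N M D g).npA j) 4 := by
      unfold Par.npA
      exact Thr.add (k := 2) (l := 2)
        (thr_iv 4 (-4) (by norm_num) (by norm_num)
            (fun g => by simp only [Par.al, Par.be, Par.ua, Par.ub]; ring)
            (fun g => by simp only [Par.al, Par.be, Par.ua, Par.ub]; ring))
        (thr_iv 4 (-4) (by norm_num) (by norm_num)
            (fun g => by simp only [Par.al, Par.be, Par.ua, Par.ub]; ring)
            (fun g => by simp only [Par.al, Par.be, Par.ua, Par.ub]; ring))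
    exact h.mono (by norm_num)
  · have h : Thr (fun g j => (Par.mk N M D g).nmA j) 4 := by
      unfold Par.nmA
      exact Thr.add (k := 2) (l := 2)
        (thr_iv 4 (-4) (by norm_num) (by norm_num)
            (fun g => by simp only [Par.al, Par.be, Par.ua, Par.ub]; ring)
            (fun g => by simp only [Par.al, Par.be, Par.ua, Par.ub]; ring))
        (thr_iv 4 (-4) (by norm_num) (by norm_num)
            (fun g => by simp only [Par.al, Par.be, Par.ua, Par.ub]; ring)
            (fun g => by simp only [Par.al, Par.be, Par.ua, Par.ub]; ring))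
    exact h.mono (by norm_num)
  · have h : Thr (fun g j => (Par.mk N M D g).thA j) 12 := by
      unfold Par.thA
      refine Thr.sub (k := 10) (l := 2) (Thr.sub (k := 8) (l := 2) (Thr.sub (k := 6) (l := 2)
        (Thr.add (k := 4) (l := 2) (Thr.add (k := 2) (l := 2) ?_ (Thr.smul 2 ?_)) ?_) ?_)
        (Thr.smul 2 ?_)) ?_
      · exact thr_iv 4 (-4) (by norm_num) (by norm_num)
          (fun g => by simp only [Par.al, Par.be, Par.ua, Par.ub]; ring)
          (fun g => by simp only [Par.al, Par.be, Par.ua, Par.ub]; ring)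
      · exact thr_iv 4 (-4) (by norm_num) (by norm_num)
          (fun g => by simp only [Par.al, Par.be, Par.ua, Par.ub]; ring)
          (fun g => by simp only [Par.al, Par.be, Par.ua, Par.ub]; ring)
      · exact thr_iv 4 (-4) (by norm_num) (by norm_num)
          (fun g => by simp only [Par.al, Par.be, Par.ua, Par.ub]; ring)
          (fun g => by simp only [Par.al, Par.be, Par.ua, Par.ub]; ring)
      · exact thr_iv 4 (-4) (by norm_num) (by norm_num)
          (fun g => by simp only [Par.al, Par.be, Par.ua, Par.ub]; ring)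
          (fun g => by simp only [Par.al, Par.be, Par.ua, Par.ub]; ring)
      · exact thr_iv 4 (-4) (by norm_num) (by norm_num)
          (fun g => by simp only [Par.al, Par.be, Par.ua, Par.ub]; ring)
          (fun g => by simp only [Par.al, Par.be, Par.ua, Par.ub]; ring)
      · exact thr_iv 4 (-4) (by norm_num) (by norm_num)
          (fun g => by simp only [Par.al, Par.be, Par.ua, Par.ub]; ring)
          (fun g => by simp only [Par.al, Par.be, Par.ua, Par.ub]; ring)
    exact h

theorem htB (N M D : ℤ) : (famB N M D).HT 20 := by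
  refine ⟨?_, ?_, ?_⟩
  · have h : Thr (fun g j => (Par.mk N M D g).npB j) 6 := by
      unfold Par.npB
      refine Thr.add (k := 4) (l := 2) (Thr.add (k := 2) (l := 2) ?_ (Thr.smul 2 ?_)) ?_
      · exact thr_iv (-4) 4 (by norm_num) (by norm_num)
          (fun g => by simp only [Par.al, Par.be, Par.ua, Par.ub]; ring)
          (fun g => by simp only [Par.al, Par.be, Par.ua, Par.ub]; ring)
      · exact thr_iv 4 4 (by norm_num) (by norm_num)
          (fun g => by simp only [Par.al, Par.be, Par.ua, Par.ub]; ring)
          (fun g => by simp only [Par.al, Par.be, Par.ua, Par.ub]; ring)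
      · exact thr_iv (-4) (-4) (by norm_num) (by norm_num)
          (fun g => by simp only [Par.al, Par.be, Par.ua, Par.ub]; ring)
          (fun g => by simp only [Par.al, Par.be, Par.ua, Par.ub]; ring)
    exact h.mono (by norm_num)
  · have h : Thr (fun g j => (Par.mk N M D g).nmB j) 6 := by
      unfold Par.nmB
      refine Thr.add (k := 4) (l := 2) (Thr.add (k := 2) (l := 2) (Thr.smul 2 ?_) ?_) ?_
      · exact thr_iv (-4) (-4) (by norm_num) (by norm_num)
          (fun g => by simp only [Par.al, Par.be, Par.ua, Par.ub]; ring)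
          (fun g => by simp only [Par.al, Par.be, Par.ua, Par.ub]; ring)
      · exact thr_iv (-4) 4 (by norm_num) (by norm_num)
          (fun g => by simp only [Par.al, Par.be, Par.ua, Par.ub]; ring)
          (fun g => by simp only [Par.al, Par.be, Par.ua, Par.ub]; ring)
      · exact thr_iv 4 4 (by norm_num) (by norm_num)
          (fun g => by simp only [Par.al, Par.be, Par.ua, Par.ub]; ring)
          (fun g => by simp only [Par.al, Par.be, Par.ua, Par.ub]; ring)
    exact h.mono (by norm_num)
  · have h : Thr (fun g j => (Par.mk N M D g).thB j) 20 := by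
      unfold Par.thB
      refine Thr.sub (k := 18) (l := 2) (Thr.sub (k := 16) (l := 2) (Thr.sub (k := 14) (l := 2)
        (Thr.sub (k := 12) (l := 2) (Thr.sub (k := 10) (l := 2) (Thr.add (k := 8) (l := 2)
        (Thr.add (k := 6) (l := 2) (Thr.add (k := 4) (l := 2) (Thr.add (k := 2) (l := 2)
        (Thr.smul 2 ?_) ?_) ?_) ?_) (Thr.smul 2 ?_)) (Thr.smul 2 ?_)) ?_) ?_) ?_)
        (Thr.smul 2 ?_)
      · exact thr_iv (-4) (-4) (by norm_num) (by norm_num)
          (fun g => by simp only [Par.al, Par.be, Par.ua, Par.ub]; ring)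
          (fun g => by simp only [Par.al, Par.be, Par.ua, Par.ub]; ring)
      · exact thr_iv (-4) (-4) (by norm_num) (by norm_num)
          (fun g => by simp only [Par.al, Par.be, Par.ua, Par.ub]; ring)
          (fun g => by simp only [Par.al, Par.be, Par.ua, Par.ub]; ring)
      · exact thr_iv (-4) 4 (by norm_num) (by norm_num)
          (fun g => by simp only [Par.al, Par.be, Par.ua, Par.ub]; ring)
          (fun g => by simp only [Par.al, Par.be, Par.ua, Par.ub]; ring)
      · exact thr_iv 4 4 (by norm_num) (by norm_num)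
          (fun g => by simp only [Par.al, Par.be, Par.ua, Par.ub]; ring)
          (fun g => by simp only [Par.al, Par.be, Par.ua, Par.ub]; ring)
      · exact thr_iv 4 4 (by norm_num) (by norm_num)
          (fun g => by simp only [Par.al, Par.be, Par.ua, Par.ub]; ring)
          (fun g => by simp only [Par.al, Par.be, Par.ua, Par.ub]; ring)
      · exact thr_iv (-4) (-4) (by norm_num) (by norm_num)
          (fun g => by simp only [Par.al, Par.be, Par.ua, Par.ub]; ring)
          (fun g => by simp only [Par.al, Par.be, Par.ua, Par.ub]; ring)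
      · exact thr_iv (-4) (-4) (by norm_num) (by norm_num)
          (fun g => by simp only [Par.al, Par.be, Par.ua, Par.ub]; ring)
          (fun g => by simp only [Par.al, Par.be, Par.ua, Par.ub]; ring)
      · exact thr_iv (-4) 4 (by norm_num) (by norm_num)
          (fun g => by simp only [Par.al, Par.be, Par.ua, Par.ub]; ring)
          (fun g => by simp only [Par.al, Par.be, Par.ua, Par.ub]; ring)
      · exact thr_iv 4 4 (by norm_num) (by norm_num)
          (fun g => by simp only [Par.al, Par.be, Par.ua, Par.ub]; ring)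
          (fun g => by simp only [Par.al, Par.be, Par.ua, Par.ub]; ring)
      · exact thr_iv 4 4 (by norm_num) (by norm_num)
          (fun g => by simp only [Par.al, Par.be, Par.ua, Par.ub]; ring)
          (fun g => by simp only [Par.al, Par.be, Par.ua, Par.ub]; ring)
    exact h

/-- the labelled family, case A -/
noncomputable def lfA (N M D : ℤ) (σ : Bool) (G : Finset ℤ) :
    LFam (cL (famA N M D).q (famA N M D).N) ℤ := (famA N M D).lf σ G 12 (htA N M D)

/-- the labelled family, case B -/
noncomputable def lfB (N M D : ℤ) (σ : Bool) (G : Finset ℤ) :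
    LFam (cL (famB N M D).q (famB N M D).N) ℤ := (famB N M D).lf σ G 20 (htB N M D)

end H54RP
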