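import Pool.Agent.H54.RP.Arc
import Pool.Agent.H54.RP.LabelAB
import Pool.Agent.H54.RP.AvA
import Pool.Agent.H54.RP.AvB

/-!
Team RP (MP_a57ff3_nt), helper54. The left noisy zone is linked to the right one.
-/

set_option autoImplicit false

namespace H54RP

open Finset Pool.Agent.H98.RP2

/-- sum over the states of an interval of blocks -/
theorem sum_blocks (h : ℤ → ℝ) (a b : ℤ) : ∑ X ∈ Icc (4 * a - 1) (4 * b + 2), h X =
    ∑ i ∈ Icc a b, (h (4 * i - 1) + h (4 * i) + h (4 * i + 1) + h (4 * i + 2)) := by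
  have h1 : ∀ i : ℤ, h (4 * i - 1) + h (4 * i) + h (4 * i + 1) + h (4 * i + 2) =
      ∑ r ∈ range 4, h (4 * i - 1 + (r : ℕ)) := by
    intro i
    rw [sum_range_succ, sum_range_succ, sum_range_succ, sum_range_one]
    push_cast
    rw [show (4 * i - 1 + 0 : ℤ) = 4 * i - 1 by ring, show (4 * i - 1 + 1 : ℤ) = 4 * i by ring,
      show (4 * i - 1 + 2 : ℤ) = 4 * i + 1 by ring, show (4 * i - 1 + 3 : ℤ) = 4 * i + 2 by ring]
  rw [sum_congr rfl fun i _ => h1 i, ← sum_product' (Icc a b) (range 4)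
    (f := fun i r => h (4 * i - 1 + ((r : ℕ) : ℤ)))]
  refine sum_nbij' (fun X => ((X + 1) / 4, ((X + 1) % 4).toNat)) (fun p => 4 * p.1 - 1 + (p.2 : ℕ))
    ?_ ?_ ?_ ?_ ?_
  · intro X hX
    rw [mem_Icc] at hX
    simp only [mem_product, mem_Icc, mem_range]
    omega
  · rintro ⟨i, r⟩ hp
    simp only [mem_product, mem_Icc, mem_range] at hp
    simp only [mem_Icc]
    omega
  · intro X hX
    simp only
    omega
  · rintro ⟨i, r⟩ hp
    simp only [mem_product, mem_Icc, mem_range] at hp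
    simp only [Prod.mk.injEq]
    omega
  · intro X hX
    simp only
    congr 1
    omega

theorem sum_add_shift_le (h : ℤ → ℝ) (h0 : ∀ X, 0 ≤ h X) (J S : Finset ℤ) (c : ℤ)
    (hS : ∀ j ∈ J, j + c ∈ S) : ∑ j ∈ J, h (j + c) ≤ ∑ X ∈ S, h X := by
  have e : ∑ j ∈ J, h (j + c) = ∑ X ∈ J.map ⟨fun j => j + c, add_left_injective c⟩, h X := by
    rw [sum_map]; rfl
  rw [e]
  refine sum_le_sum_of_subset_of_nonneg ?_ fun X _ _ => h0 X
  intro X hX
  rw [mem_map] at hX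
  obtain ⟨j, hj, rfl⟩ := hX
  exact hS j hj

namespace Fam

variable {Φ : Fam}

theorem bvar_nonneg (σ : Bool) (f : ℤ → ℝ) (j : ℤ) : 0 ≤ bvar σ f j := by
  unfold bvar; positivity

theorem bsum_nonneg (f : ℤ → ℝ) (e : ℝ) (j : ℤ) : 0 ≤ bsum f e j := by
  unfold bsum; positivity

theorem bsum_eq (f : ℤ → ℝ) (e : ℝ) (a b : ℤ) :
    ∑ j ∈ Icc a b, bsum f e j = ∑ X ∈ Icc (4 * a - 1) (4 * b + 2), |f X - e| := by
  rw [sum_blocks (fun X => |f X - e|)]
  rfl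

/-- one arc from a set of blocks -/
theorem left_step (σ : Bool) {g : ℤ} (hok : Φ.Ok g) (f : ℤ → ℝ) (e : ℝ) (J : Finset ℤ)
    {τ b d : ℤ} (h1 : -1 ≤ τ) (h2 : τ ≤ 2) (hb : b = -1 ∨ b = 0 ∨ b = 1) (hd : d = 0 ∨ d = 1)
    (hm : ∀ j ∈ J, 1 ≤ (Φ.ch g).mass σ b (stt σ τ j))
    (hD : ∀ j ∈ J, 1 ≤ (Φ.ch g).Dd d (j + Φ.q * b)) (S : Finset ℤ)
    (hS : ∀ j ∈ J, j + (Φ.q * b + Φ.N * d) ∈ S) :
    ∑ j ∈ J, bsum f e j ≤ 4 * ∑ X ∈ S, |f X - e| + 64 * (Φ.fl σ g).E1 f +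
      3 * ∑ j ∈ J, bvar σ f j := by
  have a1 := arc_sum σ hok f J h1 h2 (fun _ => ltr b d)
    (fun j hj => by rw [bb_ltr hb]; exact hm j hj)
    (fun j hj => by rw [bb_ltr hb, dd_ltr b hd]; exact hD j hj)
  have hc : cL Φ.q Φ.N (ltr b d) = Φ.q * b + Φ.N * d := by
    unfold cL
    rw [bb_ltr hb, dd_ltr b hd]
  simp only [hc] at a1
  have a2 := sum_add_shift_le (fun X => |f X - e|) (fun _ => abs_nonneg _) J S _ hS
  have a3 : ∑ j ∈ J, bsum f e j ≤ ∑ j ∈ J, (4 * |f (j + (Φ.q * b + Φ.N * d)) - f (stt σ τ j)| +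
      4 * |f (j + (Φ.q * b + Φ.N * d)) - e| + 3 * bvar σ f j) := by
    refine sum_le_sum fun j _ => ?_
    have t1 := bsum_le σ f e j h1 h2
    have t2 := abs_sub_le (f (stt σ τ j)) (f (j + (Φ.q * b + Φ.N * d))) e
    rw [abs_sub_comm (f (stt σ τ j)) (f (j + (Φ.q * b + Φ.N * d)))] at t2
    linarith
  rw [sum_add_distrib, sum_add_distrib, ← mul_sum, ← mul_sum, ← mul_sum] at a3
  linarith

end Fam

open Fam

theorem linkA (σ : Bool) {N M D g : ℤ} (h : HA ⟨N, M, D, g⟩) (f : ℤ → ℝ) (e E : ℝ)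
    (hE : ((famA N M D).fl σ g).E1 f ≤ E) (c0 c1 A B : ℤ)
    (h0 : M + 2 + 4 * g ≤ c0) (h0' : M + 2 + 4 * g + D ≤ c0)
    (h1 : c1 ≤ N - 4 * g - 1) (h1' : c1 ≤ N - 4 * g - 1 - D)
    (hA : A ≤ 4 * c0 - 1) (hB : 4 * c1 - 2 ≤ B)
    (hA2 : A ≤ M - c1 + 1 + 3 * N + D) (hB2 : M - c0 + 3 * N + D ≤ B) :
    ∑ X ∈ Icc (4 * c0 - 1) (4 * c1 - 2) ∪ Icc (4 * (M - c1 + 1) - 1) (4 * (M - c0) + 2),
      |f X - e| ≤ 352 * (∑ X ∈ Icc A B, |f X - e| + E) := by
  have hok := okA h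
  have hEn := (((famA N M D).fl σ g).E1_nonneg f).trans hE
  have hHA := h
  obtain ⟨hN, hM, g0, gD, gN, D1, D2⟩ := h
  simp only at hN hM g0 gD gN D1 D2
  have hSm : 0 ≤ ∑ X ∈ Icc A B, |f X - e| := sum_nonneg fun _ _ => abs_nonneg _
  have u1 : ∑ X ∈ Icc (4 * c0 - 1) (4 * c1 - 2) ∪ Icc (4 * (M - c1 + 1) - 1) (4 * (M - c0) + 2),
      |f X - e| ≤ ∑ X ∈ Icc (4 * c0 - 1) (4 * c1 - 2), |f X - e| +
        ∑ X ∈ Icc (4 * (M - c1 + 1) - 1) (4 * (M - c0) + 2), |f X - e| := by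
    rw [← sum_union_inter]
    have : 0 ≤ ∑ X ∈ Icc (4 * c0 - 1) (4 * c1 - 2) ∩
      Icc (4 * (M - c1 + 1) - 1) (4 * (M - c0) + 2), |f X - e| := sum_nonneg fun _ _ => abs_nonneg _
    linarith
  have u2 : ∑ X ∈ Icc (4 * c0 - 1) (4 * c1 - 2), |f X - e| ≤ ∑ X ∈ Icc A B, |f X - e| :=
    sum_le_sum_of_subset_of_nonneg (Icc_subset_Icc hA hB) fun _ _ _ => abs_nonneg _
  have u3 : ∑ j ∈ Icc (M - c1 + 1) (M - c0), bvar σ f j ≤
      96 * ((famA N M D).fl σ g).E1 f := by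
    refine merge_sum σ hok f _ fun j hj => ?_
    rw [mem_Icc] at hj
    have := noiseA hHA j (Or.inr ⟨by simp only; omega, by simp only; omega, by simp only; omega,
      by simp only; omega⟩)
    exact this
  have u4 := left_step (Φ := famA N M D) σ hok f e (Icc (M - c1 + 1) (M - c0)) (τ := -1) (b := 1)
    (d := 1) (by norm_num) (by norm_num) (by norm_num) (by norm_num)
    (fun j hj => by
      rw [mem_Icc] at hj
      rw [(mass_stt (Φ := famA N M D) g σ j).1]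
      have := Chn.w_pos hok.2 (j := j) ⟨by change -2 * M + g ≤ j; omega,
        by change j < N - g; omega⟩
      change 1 ≤ 2 * ((famA N M D).ch g).P.w j
      omega)
    (fun j hj => by
      rw [mem_Icc] at hj
      have := avA_11 hHA j (by simp only; omega) (by simp only; omega)
      have e1 : ((famA N M D).ch g).Dd 1 (j + (famA N M D).q * 1) =
          (Par.mk N M D g).D1 (Par.mk N M D g).thA (j + (Par.mk N M D g).Q) := by
        rw [mul_one]; unfold Chn.Dd; rw [if_pos rfl]; rfl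
      rw [e1]
      exact this)
    (Icc A B)
    (fun j hj => by
      rw [mem_Icc] at hj ⊢
      change A ≤ j + ((2 * N + D) * 1 + N * 1) ∧ j + ((2 * N + D) * 1 + N * 1) ≤ B
      omega)
  rw [bsum_eq] at u4
  linarith


theorem blocks_sub (f : ℤ → ℝ) (e : ℝ) (a b c : ℤ) :
    ∑ j ∈ Icc a b, bsum f e j ≤ ∑ j ∈ Icc a (c - 1), bsum f e j + ∑ j ∈ Icc c b, bsum f e j := by
  have h1 : Icc a b ⊆ Icc a (c - 1) ∪ Icc c b := by
    intro j hj
    rw [mem_union, mem_Icc, mem_Icc]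
    rw [mem_Icc] at hj
    omega
  refine (sum_le_sum_of_subset_of_nonneg h1 fun j _ _ => bsum_nonneg f e j).trans ?_
  rw [← sum_union_inter]
  have : 0 ≤ ∑ j ∈ Icc a (c - 1) ∩ Icc c b, bsum f e j := sum_nonneg fun j _ => bsum_nonneg f e j
  linarith

theorem linkB (σ : Bool) {N M D g ga : ℤ} (h : HB ⟨N, M, D, g⟩) (ha : HB ⟨N, M, D, ga⟩)
    (hg : 1000 * g ≤ 105 * N + 1000) (hga : 2 * N - 30 < 15 * ga) (f : ℤ → ℝ) (e E : ℝ)
    (hE : ((famB N M D).fl σ g).E1 f ≤ E) (hEa : ((famB N M D).fl σ ga).E1 f ≤ E)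
    (c0 c1 A B : ℤ) (h0 : N - 4 * ga - 1 ≤ c0) (h1 : 1000 * c1 ≤ 724 * N)
    (h1' : 700 * N ≤ 1000 * c1)
    (hA : A ≤ 4 * c0 - 1) (hB : 4 * c1 - 2 ≤ B)
    (hA2 : A ≤ M - c1 + 1 + 3 * N + D) (hB2 : 3 * N - 4 * g - 2 ≤ B) :
    ∑ X ∈ Icc (4 * c0 - 1) (4 * c1 - 2) ∪ Icc (4 * (M - c1 + 1) - 1) (4 * (M - c0) + 2),
      |f X - e| ≤ 16640 * (∑ X ∈ Icc A B, |f X - e| + E) := by
  have hok := okB h
  have hoka := okB ha
  have hEn := (((famB N M D).fl σ g).E1_nonneg f).trans hE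
  have hHB := h
  have hHBa := ha
  obtain ⟨hN, hM, g1, g2, D1, D2⟩ := h
  obtain ⟨_, _, g1a, g2a, _, _⟩ := ha
  simp only at hN hM g1 g2 D1 D2 g1a g2a
  have hSm : 0 ≤ ∑ X ∈ Icc A B, |f X - e| := sum_nonneg fun _ _ => abs_nonneg _
  have u1 : ∑ X ∈ Icc (4 * c0 - 1) (4 * c1 - 2) ∪ Icc (4 * (M - c1 + 1) - 1) (4 * (M - c0) + 2),
      |f X - e| ≤ ∑ X ∈ Icc (4 * c0 - 1) (4 * c1 - 2), |f X - e| +
        ∑ X ∈ Icc (4 * (M - c1 + 1) - 1) (4 * (M - c0) + 2), |f X - e| := by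
    rw [← sum_union_inter]
    have : 0 ≤ ∑ X ∈ Icc (4 * c0 - 1) (4 * c1 - 2) ∩
      Icc (4 * (M - c1 + 1) - 1) (4 * (M - c0) + 2), |f X - e| := sum_nonneg fun _ _ => abs_nonneg _
    linarith
  have u2 : ∑ X ∈ Icc (4 * c0 - 1) (4 * c1 - 2), |f X - e| ≤ ∑ X ∈ Icc A B, |f X - e| :=
    sum_le_sum_of_subset_of_nonneg (Icc_subset_Icc hA hB) fun _ _ _ => abs_nonneg _
  rw [← bsum_eq] at u1
  obtain ⟨a, haa⟩ : ∃ a, a = M - c1 + 1 := ⟨_, rfl⟩
  obtain ⟨b, hbb⟩ : ∃ b, b = M - c0 := ⟨_, rfl⟩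
  obtain ⟨lw, hlw⟩ : ∃ lw, lw = -4 * g - 1 - D := ⟨_, rfl⟩
  obtain ⟨b2, hb2⟩ : ∃ b2, b2 = (b - N - D + 1) / 4 := ⟨_, rfl⟩
  obtain ⟨bm, hbm⟩ : ∃ bm, bm = -2 * M + 4 * ga := ⟨_, rfl⟩
  rw [← haa, ← hbb] at u1 ⊢
  -- variation inside the blocks
  have v1 : ∑ j ∈ Icc a bm, bvar σ f j ≤ 192 * E := by
    have w1 : Icc a bm ⊆ Icc a (M + 4 * g + 1 - N) ∪ Icc (M + 4 * g + 2 - N) bm := by
      intro j hj
      rw [mem_union, mem_Icc, mem_Icc]
      rw [mem_Icc] at hj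
      omega
    have w2 : ∑ j ∈ Icc a (M + 4 * g + 1 - N), bvar σ f j ≤ 96 * ((famB N M D).fl σ g).E1 f := by
      refine merge_sum σ hok f _ fun j hj => ?_
      rw [mem_Icc] at hj
      exact noiseB hHB j (Or.inr ⟨by simp only; omega, by simp only; omega, by simp only; omega⟩)
    have w3 : ∑ j ∈ Icc (M + 4 * g + 2 - N) bm, bvar σ f j ≤
        96 * ((famB N M D).fl σ ga).E1 f := by
      refine merge_sum σ hoka f _ fun j hj => ?_
      rw [mem_Icc] at hj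
      exact noiseB hHBa j (Or.inr ⟨by simp only; omega, by simp only; omega, by simp only; omega⟩)
    refine (sum_le_sum_of_subset_of_nonneg w1 fun j _ _ => bvar_nonneg σ f j).trans ?_
    have w4 : ∑ j ∈ Icc a (M + 4 * g + 1 - N) ∪ Icc (M + 4 * g + 2 - N) bm, bvar σ f j ≤
        ∑ j ∈ Icc a (M + 4 * g + 1 - N), bvar σ f j +
        ∑ j ∈ Icc (M + 4 * g + 2 - N) bm, bvar σ f j := by
      rw [← sum_union_inter]
      have : 0 ≤ ∑ j ∈ Icc a (M + 4 * g + 1 - N) ∩ Icc (M + 4 * g + 2 - N) bm, bvar σ f j :=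
        sum_nonneg fun j _ => bvar_nonneg σ f j
      linarith
    linarith
  have v2 : ∀ x y : ℤ, a ≤ x → y ≤ bm → ∑ j ∈ Icc x y, bvar σ f j ≤ 192 * E := fun x y hx hy =>
    (sum_le_sum_of_subset_of_nonneg (Icc_subset_Icc hx hy) fun j _ _ => bvar_nonneg σ f j).trans v1
  -- lower part
  have p1 : ∑ j ∈ Icc a (lw - 1), bsum f e j ≤ 4 * ∑ X ∈ Icc A B, |f X - e| + 640 * E := by
    have u4 := left_step (Φ := famB N M D) σ hok f e (Icc a (lw - 1)) (τ := -1) (b := 1)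
      (d := 1) (by norm_num) (by norm_num) (by norm_num) (by norm_num)
      (fun j hj => by
        rw [mem_Icc] at hj
        rw [(mass_stt (Φ := famB N M D) g σ j).1]
        have := Chn.w_pos hok.2 (j := j) ⟨by change -2 * M + g ≤ j; omega,
          by change j < N - g; omega⟩
        change 1 ≤ 2 * ((famB N M D).ch g).P.w j
        omega)
      (fun j hj => by
        rw [mem_Icc] at hj
        have := avB_11 hHB j (by simp only; omega) (by simp only; omega)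
        have e1 : ((famB N M D).ch g).Dd 1 (j + (famB N M D).q * 1) =
            (Par.mk N M D g).D1 (Par.mk N M D g).thB (j + (Par.mk N M D g).Q) := by
          rw [mul_one]; unfold Chn.Dd; rw [if_pos rfl]; rfl
        rw [e1]
        exact this)
      (Icc A B)
      (fun j hj => by
        rw [mem_Icc] at hj ⊢
        change A ≤ j + ((2 * N + D) * 1 + N * 1) ∧ j + ((2 * N + D) * 1 + N * 1) ≤ B
        omega)
    have := v2 a (lw - 1) le_rfl (by omega)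
    linarith
  -- upper steps
  have p2 : ∀ y z : ℤ, y ≤ bm → (∀ j, lw ≤ j → j ≤ y → (j - N - D + 1) / 4 ≤ z) →
      ∑ j ∈ Icc lw y, bsum f e j ≤ 4 * ∑ j ∈ Icc a z, bsum f e j + 640 * E := by
    intro y z hy hz
    have u4 := left_step (Φ := famB N M D) σ hoka f e (Icc lw y) (τ := 2) (b := -1)
      (d := 1) (by norm_num) (by norm_num) (by norm_num) (by norm_num)
      (fun j hj => by
        rw [mem_Icc] at hj
        rw [(mass_stt (Φ := famB N M D) ga σ j).2.2.2.2.2]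
        have := Chn.w_pos hoka.2 (j := j) ⟨by change -2 * M + ga ≤ j; omega,
          by change j < N - ga; omega⟩
        change 1 ≤ 2 * ((famB N M D).ch ga).P.w j
        omega)
      (fun j hj => by
        rw [mem_Icc] at hj
        have := avB_m11 hHBa j (by simp only; omega) (by simp only; omega)
        have e1 : ((famB N M D).ch ga).Dd 1 (j + (famB N M D).q * -1) =
            (Par.mk N M D ga).D1 (Par.mk N M D ga).thB (j - (Par.mk N M D ga).Q) := by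
          rw [show j + (famB N M D).q * -1 = j - (Par.mk N M D ga).Q by
            change j + (2 * N + D) * -1 = j - (2 * N + D); ring]
          unfold Chn.Dd; rw [if_pos rfl]; rfl
        rw [e1]
        exact this)
      (Icc (4 * a - 1) (4 * z + 2))
      (fun j hj => by
        rw [mem_Icc] at hj ⊢
        have := hz j hj.1 hj.2
        change 4 * a - 1 ≤ j + ((2 * N + D) * -1 + N * 1) ∧
          j + ((2 * N + D) * -1 + N * 1) ≤ 4 * z + 2
        omega)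
    rw [← bsum_eq] at u4
    have := v2 lw y (by omega) hy
    linarith
  have p3 := p2 b b2 (by omega) (fun j _ hj => by omega)
  have p4 := p2 b2 (lw - 1) (by omega) (fun j _ hj => by omega)
  have p5 : ∑ j ∈ Icc a b2, bsum f e j ≤ ∑ j ∈ Icc a (lw - 1), bsum f e j +
      ∑ j ∈ Icc lw b2, bsum f e j := blocks_sub f e a b2 lw
  have p6 : ∑ j ∈ Icc a b, bsum f e j ≤ ∑ j ∈ Icc a (lw - 1), bsum f e j +
      ∑ j ∈ Icc lw b, bsum f e j := blocks_sub f e a b lw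
  linarith

end H54RP
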