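import Pool.Agent.H54.RP.Link
import Pool.Agent.H98.RP2.Fam

/-!
Team RP (MP_a57ff3_nt), helper54. The link in the common frame (`FA`, `FB`, `PA`, `PB`).
-/

set_option autoImplicit false

namespace H54RP

open Finset Pool.Agent.H98.RP2

theorem E1_FA {N M D g : ℤ} (σ : Bool) (h : HA ⟨N, M, D, g⟩) (f : ℤ → ℝ) :
    ((famA N M D).fl σ g).E1 f = (FA N M D σ g).E1 f := by
  unfold Flow.E1
  rw [(famA N M D).fl_supp σ (okA h)]
  refine sum_congr rfl fun X _ => sum_congr rfl fun v _ => ?_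
  rw [(famA N M D).fl_W σ (okA h), FA_W h]
  rfl

theorem E1_FB {N M D g : ℤ} (σ : Bool) (h : HB ⟨N, M, D, g⟩) (f : ℤ → ℝ) :
    ((famB N M D).fl σ g).E1 f = (FB N M D σ g).E1 f := by
  unfold Flow.E1
  rw [(famB N M D).fl_supp σ (okB h)]
  refine sum_congr rfl fun X _ => sum_congr rfl fun v _ => ?_
  rw [(famB N M D).fl_W σ (okB h), FB_W h]
  rfl

/-- the target set: blocks in `[c0 + e, c1 - e)` and their mirror images -/
noncomputable def CC (M c0 c1 e : ℤ) : Finset ℤ :=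
  Icc (4 * (c0 + e) - 1) (4 * (c1 - e) - 2) ∪
    Icc (4 * (M - (c1 - e) + 1) - 1) (4 * (M - (c0 + e)) + 2)

theorem mem_CC {M c0 c1 e X : ℤ} : X ∈ CC M c0 c1 e ↔
    (c0 + e ≤ blk X ∧ blk X < c1 - e) ∨ (c0 + e ≤ M - blk X ∧ M - blk X < c1 - e) := by
  unfold CC blk
  rw [mem_union, mem_Icc, mem_Icc]
  omega

theorem linkFA (σ : Bool) {N M D g0 g1 c0 c1 : ℤ} (hP : PA N M D g0 g1 c0 c1) (z e : ℤ)
    (hz : 1000000 * z ≤ N) (hz0 : 0 ≤ z) (he : N ≤ 1000 * e + 1000) (he' : 500 * e ≤ N)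
    (f : ℤ → ℝ) (a E : ℝ) (hE : (FA N M D σ g0).E1 f ≤ E) :
    ∑ X ∈ CC M c0 c1 e, |f X - a| ≤
      352 * (∑ X ∈ Icc (4 * c0 - 1 + 2 * z) (4 * c1 - 2 - 3 * z), |f X - a| + E) := by
  have hA := hP.toA (g := g0) ⟨le_rfl, hP.g01⟩
  rw [← E1_FA σ hA] at hE
  obtain ⟨hN, hM, D1, D2, h0, gD, gu, g1, g1', a1, a2, a3, a4⟩ := hP
  refine linkA σ hA f a E hE (c0 + e) (c1 - e) _ _ ?_ ?_ ?_ ?_ ?_ ?_ ?_ ?_ <;>
    (rcases le_or_gt 0 D with hD | hD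
     · have b1 := a1 hD
       have b2 := a3 hD
       omega
     · have b1 := a2 hD
       have b2 := a4 hD
       omega)

theorem linkFB (σ : Bool) {N M D g0 g1 ga c0 c1 : ℤ} (hP : PB N M D g0 g1 ga c0 c1) (z e : ℤ)
    (hz : 1000000 * z ≤ N) (hz0 : 0 ≤ z) (he : N ≤ 1000 * e + 1000) (he' : 500 * e ≤ N)
    (f : ℤ → ℝ) (a E : ℝ) (hE : (FB N M D σ g0).E1 f ≤ E) (hEa : (FB N M D σ ga).E1 f ≤ E) :
    ∑ X ∈ CC M c0 c1 e, |f X - a| ≤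
      16640 * (∑ X ∈ Icc (4 * c0 - 1 + 2 * z) (4 * c1 - 2 - 3 * z), |f X - a| + E) := by
  have hB := hP.toB (g := g0) ⟨le_rfl, hP.g01⟩
  have hBa := hP.toBa
  rw [← E1_FB σ hB] at hE
  rw [← E1_FB σ hBa] at hEa
  obtain ⟨hN, hM, D1, D2, h0, h0', g1, g1', ga, ga', a1, a2, a3⟩ := hP
  exact linkB σ hB hBa (by omega) (by omega) f a E hE hEa (c0 + e) (c1 - e) _ _ (by omega)
    (by omega) (by omega) (by omega) (by omega) (by omega) (by omega)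

end H54RP
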