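import Pool.Agent.H54.RP.Flow

/-!
Team RP (MP_a57ff3_nt), helper54. The comparison inequality: a shift by `4 ^ L * s` is pushed through
`L` moves to a shift by `s`.
-/

namespace H54RP

open Finset

variable {ι : Type*} [Fintype ι] {c : ι → ℤ}

/-- sub-Markov landing weight: `L` moves remain, `χ` = safety factors, `Om` = landing factor -/
noncomputable def Fl (F : Flow c) (χ : ℕ → ℤ → ℝ) (Om : ℤ → ℝ) : ℕ → ℤ → ℝ
  | 0, X => Om X
  | L + 1, X => χ (L + 1) X * ∑ v, F.K X v * Fl F χ Om L (T c v X)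

theorem Fl_nonneg (F : Flow c) {χ : ℕ → ℤ → ℝ} {Om : ℤ → ℝ} (hχ : ∀ L X, 0 ≤ χ L X)
    (hO : ∀ X, 0 ≤ Om X) (L : ℕ) (X : ℤ) : 0 ≤ Fl F χ Om L X := by
  induction L generalizing X with
  | zero => exact hO X
  | succ L ih =>
    exact mul_nonneg (hχ _ _) (sum_nonneg fun v _ => mul_nonneg (F.K_nonneg X v) (ih _))

theorem Fl_le_one (F : Flow c) {χ : ℕ → ℤ → ℝ} {Om : ℤ → ℝ} (hχ : ∀ L X, 0 ≤ χ L X)
    (hχ1 : ∀ L X, χ L X ≤ 1) (hO : ∀ X, 0 ≤ Om X) (hO1 : ∀ X, Om X ≤ 1) (L : ℕ) (X : ℤ) :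
    Fl F χ Om L X ≤ 1 := by
  induction L generalizing X with
  | zero => exact hO1 X
  | succ L ih =>
    have h1 : ∑ v, F.K X v * Fl F χ Om L (T c v X) ≤ 1 := by
      calc ∑ v, F.K X v * Fl F χ Om L (T c v X) ≤ ∑ v, F.K X v * 1 :=
            sum_le_sum fun v _ => mul_le_mul_of_nonneg_left (ih _) (F.K_nonneg X v)
        _ ≤ 1 := by simp only [mul_one]; exact F.sum_K_le X
    have h0 : 0 ≤ ∑ v, F.K X v * Fl F χ Om L (T c v X) :=
      sum_nonneg fun v _ => mul_nonneg (F.K_nonneg X v) (Fl_nonneg F hχ hO L _)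
    calc χ (L + 1) X * ∑ v, F.K X v * Fl F χ Om L (T c v X) ≤ 1 * 1 :=
          mul_le_mul (hχ1 _ _) h1 h0 zero_le_one
      _ = 1 := one_mul 1

theorem sum_shift_le (S : Finset ℤ) (g : ℤ → ℝ) (h0 : ∀ X, 0 ≤ g X) (h1 : ∀ X, X ∉ S → g X = 0)
    (h : ℤ) : ∑ X ∈ S, g (X + h) ≤ ∑ X ∈ S, g X := by
  classical
  have e : ∑ X ∈ S, g (X + h) = ∑ Y ∈ S.map ⟨fun X => X + h, add_left_injective h⟩, g Y := by
    rw [sum_map]; rfl
  rw [e, ← sum_filter_add_sum_filter_not (S.map _) (fun Y => Y ∈ S)]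
  have h2 : ∑ Y ∈ (S.map ⟨fun X => X + h, add_left_injective h⟩).filter (fun Y => ¬ Y ∈ S), g Y
      = 0 := sum_eq_zero fun Y hY => h1 Y (mem_filter.1 hY).2
  rw [h2, add_zero]
  exact sum_le_sum_of_subset_of_nonneg (fun Y hY => (mem_filter.1 hY).2) fun Y _ _ => h0 Y

/-- the comparison inequality -/
theorem star (F : Flow c) {χ : ℕ → ℤ → ℝ} {Om : ℤ → ℝ} (hχ : ∀ L X, 0 ≤ χ L X)
    (hχ1 : ∀ L X, χ L X ≤ 1) (hO : ∀ X, 0 ≤ Om X) (hO1 : ∀ X, Om X ≤ 1) (s : ℤ) (L0 : ℕ)
    (safe : ∀ L, L < L0 → ∀ X, χ (L + 1) X ≠ 0 → ∀ v, F.W (X + 4 ^ (L + 1) * s) v = F.W X v)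
    (f : ℤ → ℝ) (L : ℕ) (hL : L ≤ L0) :
    ∑ X ∈ F.supp, F.w X * Fl F χ Om L X * |f (X + 4 ^ L * s) - f X| ≤
      2 * L * F.E1 f + ∑ X ∈ F.supp, F.w X * Om X * |f (X + s) - f X| := by
  induction L with
  | zero => simp [Fl]
  | succ L ih =>
    have ih' := ih (by omega)
    have hF0 := Fl_nonneg F hχ hO
    have hF1 := Fl_le_one F hχ hχ1 hO hO1
    -- pointwise bound
    have key : ∀ X, F.w X * Fl F χ Om (L + 1) X * |f (X + 4 ^ (L + 1) * s) - f X| ≤
        (∑ v, F.W X v * |f (T c v X) - f X|) +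
        (∑ v, F.W X v * (Fl F χ Om L (T c v X) * |f (T c v X + 4 ^ L * s) - f (T c v X)|)) +
        ∑ v, F.W (X + 4 ^ (L + 1) * s) v *
          |f (T c v (X + 4 ^ (L + 1) * s)) - f (X + 4 ^ (L + 1) * s)| := by
      intro X
      have e1 : F.w X * Fl F χ Om (L + 1) X * |f (X + 4 ^ (L + 1) * s) - f X| =
          ∑ v, χ (L + 1) X * F.W X v * Fl F χ Om L (T c v X) *
            |f (X + 4 ^ (L + 1) * s) - f X| := by
        simp only [Fl]
        rw [mul_sum, mul_sum, sum_mul]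
        refine sum_congr rfl fun v _ => ?_
        rw [← F.w_mul_K X v]
        ring
      rw [e1, ← sum_add_distrib, ← sum_add_distrib]
      refine sum_le_sum fun v _ => ?_
      have hT : T c v (X + 4 ^ (L + 1) * s) = T c v X + 4 ^ L * s := by
        rw [← T_add]; congr 1; ring
      by_cases hz : χ (L + 1) X = 0
      · rw [hz]
        have a1 := mul_nonneg (F.nonneg X v) (abs_nonneg (f (T c v X) - f X))
        have a2 := mul_nonneg (F.nonneg X v) (mul_nonneg (hF0 L (T c v X))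
          (abs_nonneg (f (T c v X + 4 ^ L * s) - f (T c v X))))
        have a3 := mul_nonneg (F.nonneg (X + 4 ^ (L + 1) * s) v)
          (abs_nonneg (f (T c v (X + 4 ^ (L + 1) * s)) - f (X + 4 ^ (L + 1) * s)))
        simp only [zero_mul]
        linarith
      · have hs := safe L (by omega) X hz v
        rw [hs, hT]
        have htri : |f (X + 4 ^ (L + 1) * s) - f X| ≤ |f (T c v X) - f X| +
            |f (T c v X + 4 ^ L * s) - f (T c v X)| +
            |f (T c v X + 4 ^ L * s) - f (X + 4 ^ (L + 1) * s)| := by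
          have := abs_sub_le (f (X + 4 ^ (L + 1) * s)) (f (T c v X + 4 ^ L * s)) (f X)
          have h2 := abs_sub_le (f (T c v X + 4 ^ L * s)) (f (T c v X)) (f X)
          rw [abs_sub_comm (f (X + 4 ^ (L + 1) * s)) (f (T c v X + 4 ^ L * s))] at this
          linarith
        have hW := F.nonneg X v
        have hFL0 := hF0 L (T c v X)
        have hFL1 := hF1 L (T c v X)
        have hc0 := hχ (L + 1) X
        have hc1 := hχ1 (L + 1) X
        set A := |f (T c v X) - f X|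
        set B := |f (T c v X + 4 ^ L * s) - f (T c v X)|
        set C := |f (T c v X + 4 ^ L * s) - f (X + 4 ^ (L + 1) * s)|
        have hA : 0 ≤ A := abs_nonneg _
        have hB : 0 ≤ B := abs_nonneg _
        have hC : 0 ≤ C := abs_nonneg _
        set q := Fl F χ Om L (T c v X)
        set x := χ (L + 1) X
        have hxq0 : 0 ≤ x * q := mul_nonneg hc0 hFL0
        have hxq1 : x * q ≤ q := by nlinarith
        have hxq2 : x * q ≤ 1 := by nlinarith
        have hWxq : 0 ≤ F.W X v * (x * q) := mul_nonneg hW hxq0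
        calc x * F.W X v * q * |f (X + 4 ^ (L + 1) * s) - f X|
            = (F.W X v * (x * q)) * |f (X + 4 ^ (L + 1) * s) - f X| := by ring
          _ ≤ (F.W X v * (x * q)) * (A + B + C) := mul_le_mul_of_nonneg_left htri hWxq
          _ = F.W X v * ((x * q) * A) + F.W X v * ((x * q) * B) + F.W X v * ((x * q) * C) := by
              ring
          _ ≤ F.W X v * (1 * A) + F.W X v * (q * B) + F.W X v * (1 * C) := by
              gcongr
          _ = F.W X v * A + F.W X v * (q * B) + F.W X v * C := by ring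
    have hsum := sum_le_sum fun X (_ : X ∈ F.supp) => key X
    rw [sum_add_distrib, sum_add_distrib] at hsum
    have hpush := F.push (fun Y => Fl F χ Om L Y * |f (Y + 4 ^ L * s) - f Y|)
    have hsh := sum_shift_le F.supp (fun X => ∑ v, F.W X v * |f (T c v X) - f X|)
      (fun X => sum_nonneg fun v _ => mul_nonneg (F.nonneg X v) (abs_nonneg _))
      (fun X hX => sum_eq_zero fun v _ => by rw [F.off X hX v, zero_mul]) (4 ^ (L + 1) * s)
    have hE : ∑ X ∈ F.supp, ∑ v, F.W X v * |f (T c v X) - f X| = F.E1 f := rfl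
    rw [hE] at hsum hsh
    rw [hpush] at hsum
    have h3 : ∑ Y ∈ F.supp, F.w Y * (Fl F χ Om L Y * |f (Y + 4 ^ L * s) - f Y|) =
        ∑ X ∈ F.supp, F.w X * Fl F χ Om L X * |f (X + 4 ^ L * s) - f X| :=
      sum_congr rfl fun X _ => by ring
    rw [h3] at hsum
    push_cast
    linarith

end H54RP
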